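import Mathlib

/-!
# Symmetric subsets of abelian groups which meet the quotients of any four large finite sets

`Four K S`: among any four classes of `K` elements there are two elements in different classes with a quotient
in `S`. Then `S` generates a subgroup `H` of index at most three, and every element of `H` is a product of three
elements of `S`, two of which can be taken from a fixed finite set.
-/

set_option autoImplicit false

namespace Q178.RS

open Filter

variable {G : Type*} [CommGroup G]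

/-- among any four classes of `K` elements there are two elements in different classes whose quotient is in `S` -/
def Four (K : ℕ) (S : Set G) : Prop :=
  ∀ A : Fin 4 → Fin K → G, (∀ i, Function.Injective (A i)) →
    ∃ i j : Fin 4, i ≠ j ∧ ∃ s t : Fin K, A i s / A j t ∈ S

/-- `S` times `S` -/
def Two (S : Set G) : Set G := {g | ∃ s ∈ S, ∃ t ∈ S, g = s * t}

theorem seq {U : Ultrafilter ℕ} (hU : (U : Filter ℕ) ≤ atTop) (R : ℕ → ℕ → Prop)
    (h : ∀ᶠ i in (U : Filter ℕ), ∀ᶠ j in (U : Filter ℕ), R i j) :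
    ∃ f : ℕ → ℕ, StrictMono f ∧ ∀ m n, m < n → R (f m) (f n) := by
  obtain ⟨f, hf1, hf2⟩ := exists_seq_of_forall_finset_exists
    (fun i => ∀ᶠ j in (U : Filter ℕ), R i j) (fun i j => R i j ∧ i < j) (by
      intro s hs
      have h1 : ∀ᶠ y in (U : Filter ℕ), ∀ x ∈ s, R x y := (Finset.eventually_all s).2 hs
      have h2 : ∀ᶠ y in (U : Filter ℕ), ∀ x ∈ s, x < y := (Finset.eventually_all s).2 (fun x _ =>
        hU (eventually_gt_atTop x))
      obtain ⟨y, hy1, hy2, hy3⟩ := (h.and (h1.and h2)).exists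
      exact ⟨y, hy1, fun x hx => ⟨hy2 x hx, hy3 x hx⟩⟩)
  exact ⟨f, strictMono_nat_of_lt_succ fun n => (hf2 n (n + 1) (Nat.lt_succ_self n)).2,
    fun m n hmn => (hf2 m n hmn).1⟩

/-- the iterated limit of `g * z i / z j` is in `T` -/
def Lim (U : Ultrafilter ℕ) (z : ℕ → G) (T : Set G) (g : G) : Prop :=
  ∀ᶠ i in (U : Filter ℕ), ∀ᶠ j in (U : Filter ℕ), g * z i / z j ∈ T

theorem lim_or (U : Ultrafilter ℕ) (z : ℕ → G) (A B : Set G) (g : G) (h : Lim U z (A ∪ B) g) :
    Lim U z A g ∨ Lim U z B g := by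
  unfold Lim at *
  rw [← Ultrafilter.eventually_or]
  refine h.mono fun i hi => ?_
  rw [← Ultrafilter.eventually_or]
  exact hi

theorem lim_not (U : Ultrafilter ℕ) (z : ℕ → G) (A : Set G) (g : G) (h : ¬ Lim U z A g) :
    Lim U z Aᶜ g := by
  unfold Lim at *
  rw [← Ultrafilter.eventually_not] at h
  refine h.mono fun i hi => ?_
  rw [← Ultrafilter.eventually_not] at hi
  exact hi

theorem lim_mono (U : Ultrafilter ℕ) (z : ℕ → G) {A B : Set G} (hAB : A ⊆ B) (g : G)
    (h : Lim U z A g) : Lim U z B g :=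
  h.mono fun _ hi => hi.mono fun _ hj => hAB hj

theorem lim_false (U : Ultrafilter ℕ) (z : ℕ → G) (A : Set G) (g : G) (h1 : Lim U z A g)
    (h2 : Lim U z Aᶜ g) : False := by
  obtain ⟨i, hi1, hi2⟩ := (h1.and h2).exists
  obtain ⟨j, hj1, hj2⟩ := (hi1.and hi2).exists
  exact hj2 hj1

theorem step1 {K : ℕ} {S : Set G} (hinv : ∀ s ∈ S, s⁻¹ ∈ S) (hF : Four K S)
    (U : Ultrafilter ℕ) (hU : (U : Filter ℕ) ≤ atTop) (z : ℕ → G) (hz : Function.Injective z) :
    Lim U z S 1 := by
  by_contra h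
  obtain ⟨f, hf, hR⟩ := seq hU _ (lim_not U z S 1 h)
  simp only [one_mul] at hR
  obtain ⟨i, j, hij, s, t, hst⟩ := hF (fun i s => z (f (finProdFinEquiv (i, s) : Fin (4 * K)))) (by
    intro i s t hst
    have h1 := hf.injective (hz hst)
    have h2 := finProdFinEquiv.injective (Fin.ext h1)
    exact (Prod.mk.inj h2).2)
  have hne : ((finProdFinEquiv (i, s) : Fin (4 * K)) : ℕ) ≠ (finProdFinEquiv (j, t) : Fin (4 * K)) := by
    intro h1
    exact hij (Prod.mk.inj (finProdFinEquiv.injective (Fin.ext h1))).1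
  rcases lt_or_gt_of_ne hne with h1 | h1
  · exact hR _ _ h1 hst
  · apply hR _ _ h1
    have := hinv _ hst
    rwa [inv_div] at this

theorem idA (a b p : G) : (a / b * p)⁻¹ * (a * p) = b := by
  rw [inv_mul_eq_iff_eq_mul, mul_right_comm, div_mul_cancel]

/-- data for a good sequence: `y 0, ..., y (K - 1)` with all quotients in `S` -/
theorem good_seq {S : Set G} (h1 : (1 : G) ∈ S) (hinv : ∀ s ∈ S, s⁻¹ ∈ S)
    (f : ℕ → ℕ) (z : ℕ → G) (hR : ∀ m n, m < n → z (f m) / z (f n) ∈ S) (s t : ℕ) :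
    z (f s) / z (f t) ∈ S := by
  rcases lt_trichotomy s t with h | h | h
  · exact hR _ _ h
  · rw [h, div_self']; exact h1
  · have := hinv _ (hR _ _ h)
    rwa [inv_div] at this

/-- the classes `c i * y s` -/
theorem four_mul {K : ℕ} {S : Set G} (hF : Four K S) (y : Fin K → G) (hy : Function.Injective y)
    (c : Fin 4 → G) : ∃ i j : Fin 4, i ≠ j ∧ ∃ s t : Fin K, c i / c j * (y s / y t) ∈ S := by
  obtain ⟨i, j, hij, s, t, h⟩ := hF (fun i s => c i * y s) (fun i s t h => hy (mul_left_cancel h))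
  refine ⟨i, j, hij, s, t, ?_⟩
  rwa [div_mul_div_comm]

/-- `S` is syndetic -/
theorem syndetic {K : ℕ} {S : Set G} (hinv : ∀ s ∈ S, s⁻¹ ∈ S) (hF : Four K S)
    (y : Fin K → G) (hy : Function.Injective y) :
    ∃ E : Finset G, ∀ x : G, ∃ s ∈ S, ∃ e ∈ E, x = s * e := by
  classical
  by_contra hcon
  push Not at hcon
  obtain ⟨Q, hQ⟩ : ∃ Q : Finset G, Q = Finset.univ.image (fun p : Fin K × Fin K => y p.1 / y p.2) :=
    ⟨_, rfl⟩
  have hQm : ∀ s t, y s / y t ∈ Q := fun s t => by
    rw [hQ]; exact Finset.mem_image.2 ⟨(s, t), Finset.mem_univ _, rfl⟩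
  -- greedy choice
  have key : ∀ c : Fin 4 → G, (∀ i j : Fin 4, i < j → ∀ s ∈ S, ∀ q ∈ Q, c j ≠ s * (c i * q)) → False := by
    intro c hc
    obtain ⟨i, j, hij, s, t, h⟩ := four_mul hF y hy c
    rcases lt_or_gt_of_ne hij with h1 | h1
    · refine hc i j h1 _ (hinv _ h) (y s / y t) (hQm s t) ?_
      exact (idA _ _ _).symm
    · refine hc j i h1 _ h (y t / y s) (hQm t s) ?_
      have : c i / c j * (y s / y t) * (c j * (y t / y s)) =
          (c i / c j * c j) * ((y s / y t) * (y t / y s)) := by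
        simp only [mul_assoc, mul_left_comm]
      rw [this, div_mul_cancel, div_mul_div_cancel, div_self', mul_one]
  obtain ⟨x1, hx1⟩ := hcon (Q.image (fun q => 1 * q))
  obtain ⟨x2, hx2⟩ := hcon (Q.image (fun q => 1 * q) ∪ Q.image (fun q => x1 * q))
  obtain ⟨x3, hx3⟩ := hcon (Q.image (fun q => 1 * q) ∪ Q.image (fun q => x1 * q) ∪
    Q.image (fun q => x2 * q))
  refine key ![1, x1, x2, x3] ?_
  intro i j hij s hs q hq
  fin_cases i <;> fin_cases j <;> simp at hij ⊢
  · intro h
    exact hx1 s hs (1 * q) (Finset.mem_image.2 ⟨q, hq, rfl⟩) (by rw [one_mul]; exact h)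
  · intro h
    exact hx2 s hs (1 * q) (by simp; left; exact hq) (by rw [one_mul]; exact h)
  · intro h
    exact hx3 s hs (1 * q) (by simp; left; exact hq) (by rw [one_mul]; exact h)
  · intro h
    exact hx2 s hs (x1 * q) (by simp; right; exact hq) h
  · intro h
    exact hx3 s hs (x1 * q) (by simp; right; left; exact hq) h
  · intro h
    exact hx3 s hs (x2 * q) (by simp; right; right; exact hq) h

end Q178.RS
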