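import Pool.Agent.Q178.RS.Abs

/-!
# The structure theorem for sets `S` with `Four K S`
-/

set_option autoImplicit false

namespace Q178.RS

open Filter

variable {G : Type*} [CommGroup G]

theorem idB (x p q : G) : x * p / q * (q / p) = x := by
  rw [div_mul_div_cancel, mul_div_assoc, div_self', mul_one]

/-- part (4): among any four elements two have a quotient in `S` times a finite set -/
theorem part4 {K : ℕ} {S : Set G} (hF : Four K S) (y : Fin K → G) (hy : Function.Injective y)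
    (g : Fin 4 → G) : ∃ i j : Fin 4, i ≠ j ∧ ∃ s ∈ S, ∃ a b : Fin K, g i / g j = s * (y a / y b) := by
  obtain ⟨i, j, hij, s, t, h⟩ := four_mul hF y hy g
  refine ⟨i, j, hij, _, h, t, s, ?_⟩
  rw [mul_assoc, div_mul_div_cancel, div_self', mul_one]

/-- ordered form of `Four` -/
theorem four_lt {K : ℕ} {S : Set G} (hinv : ∀ s ∈ S, s⁻¹ ∈ S) (hF : Four K S)
    (A : Fin 4 → Fin K → G) (hA : ∀ i, Function.Injective (A i)) :
    ∃ i j : Fin 4, i < j ∧ ∃ s t : Fin K, A j t / A i s ∈ S := by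
  obtain ⟨i, j, hij, s, t, h⟩ := hF A hA
  rcases lt_or_gt_of_ne hij with h1 | h1
  · refine ⟨i, j, h1, s, t, ?_⟩
    have := hinv _ h
    rwa [inv_div] at this
  · exact ⟨j, i, h1, t, s, h⟩

theorem four_mul_lt {K : ℕ} {S : Set G} (hinv : ∀ s ∈ S, s⁻¹ ∈ S) (hF : Four K S) (y : Fin K → G)
    (hy : Function.Injective y) (c : Fin 4 → G) :
    ∃ i j : Fin 4, i < j ∧ ∃ s t : Fin K, c j / c i * (y s / y t) ∈ S := by
  obtain ⟨i, j, hij, s, t, h⟩ := four_lt hinv hF (fun i s => c i * y s)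
    (fun i s t h => hy (mul_left_cancel h))
  refine ⟨i, j, hij, t, s, ?_⟩
  rwa [div_mul_div_comm]

/-- first case: some element has the type `S S \ S` -/
theorem case1 {K : ℕ} {S : Set G} (h1 : (1 : G) ∈ S) (hinv : ∀ s ∈ S, s⁻¹ ∈ S) (hF : Four K S)
    (U : Ultrafilter ℕ) (hU : (U : Filter ℕ) ≤ atTop) (z : ℕ → G) (hz : Function.Injective z)
    (g : G) (hg : Lim U z (Two S \ S) g) :
    ∃ F : Finset G, (F : Set G) ⊆ S ∧ 1 ∈ F ∧
      (∀ x : G, ∃ s ∈ S, ∃ f₁ ∈ F, ∃ f₂ ∈ F, x = s * (f₁ * f₂)) ∧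
      (∀ c : Fin 4 → G, ∃ i j, i ≠ j ∧ ∃ s ∈ S, ∃ f ∈ F, c i / c j = s * f) := by
  classical
  have hs1 := step1 hinv hF U hU z hz
  obtain ⟨f, hf, hR⟩ := seq hU (fun i j => z i / z j ∈ S ∧ g * z i / z j ∈ Two S \ S)
    ((hs1.and hg).mono fun i hi => (hi.1.and hi.2).mono fun j hj =>
      ⟨by have := hj.1; rwa [one_mul] at this, hj.2⟩)
  have hyS := good_seq h1 hinv f z (fun m n hmn => (hR m n hmn).1)
  obtain ⟨y₁, hy₁⟩ : ∃ y₁ : Fin K → G, y₁ = fun s : Fin K => z (f s) := ⟨_, rfl⟩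
  obtain ⟨y₂, hy₂⟩ : ∃ y₂ : Fin K → G, y₂ = fun s : Fin K => z (f (K + s)) := ⟨_, rfl⟩
  have hi₁ : Function.Injective y₁ := by
    intro s t h
    rw [hy₁] at h
    exact Fin.ext (hf.injective (hz h))
  have hi₂ : Function.Injective y₂ := by
    intro s t h
    rw [hy₂] at h
    exact Fin.ext (Nat.add_left_cancel (hf.injective (hz h)))
  have hS₁ : ∀ s t, y₁ s / y₁ t ∈ S := fun s t => by rw [hy₁]; exact hyS _ _
  have hS₂ : ∀ s t, y₂ s / y₂ t ∈ S := fun s t => by rw [hy₂]; exact hyS _ _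
  have hD : ∀ s t, g * y₁ s / y₂ t ∈ Two S \ S := fun s t => by
    rw [hy₁, hy₂]
    exact (hR _ _ (by have := s.2; omega)).2
  have hD1 : ∀ s t, ∃ p q : G, p ∈ S ∧ q ∈ S ∧ g * y₁ s / y₂ t = p * q := fun s t => by
    obtain ⟨p, hp, q, hq, h⟩ := (hD s t).1
    exact ⟨p, q, hp, hq, h⟩
  choose P Q hP hQ hPQ using hD1
  obtain ⟨F, hFd⟩ : ∃ F : Finset G, F = {1} ∪ Finset.univ.biUnion (fun u : Fin K × Fin K =>
    ({y₁ u.1 / y₁ u.2, y₂ u.1 / y₂ u.2, P u.1 u.2, Q u.1 u.2, (P u.1 u.2)⁻¹, (Q u.1 u.2)⁻¹} :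
      Finset G)) := ⟨_, rfl⟩
  have hF1 : (1 : G) ∈ F := by rw [hFd]; simp
  have hFm : ∀ s t, y₁ s / y₁ t ∈ F ∧ y₂ s / y₂ t ∈ F ∧ P s t ∈ F ∧ Q s t ∈ F ∧ (P s t)⁻¹ ∈ F ∧
      (Q s t)⁻¹ ∈ F := by
    intro s t
    have key : ∀ x, x ∈ ({y₁ s / y₁ t, y₂ s / y₂ t, P s t, Q s t, (P s t)⁻¹, (Q s t)⁻¹} :
        Finset G) → x ∈ F := by
      intro x hx
      rw [hFd, Finset.mem_union]
      right
      exact Finset.mem_biUnion.2 ⟨(s, t), Finset.mem_univ _, hx⟩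
    refine ⟨key _ ?_, key _ ?_, key _ ?_, key _ ?_, key _ ?_, key _ ?_⟩ <;> simp
  have hFS : (F : Set G) ⊆ S := by
    intro x hx
    rw [hFd, Finset.mem_coe, Finset.mem_union] at hx
    rcases hx with hx | hx
    · rw [Finset.mem_singleton] at hx
      rw [hx]; exact h1
    · obtain ⟨u, -, hu⟩ := Finset.mem_biUnion.1 hx
      simp only [Finset.mem_insert, Finset.mem_singleton] at hu
      rcases hu with h | h | h | h | h | h <;> rw [h]
      · exact hS₁ _ _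
      · exact hS₂ _ _
      · exact hP _ _
      · exact hQ _ _
      · exact hinv _ (hP _ _)
      · exact hinv _ (hQ _ _)
  refine ⟨F, hFS, hF1, ?_, ?_⟩
  · intro x
    obtain ⟨i, j, hij, s, t, h⟩ := four_lt hinv hF
      ![y₂, fun s => g * y₁ s, fun s => x * y₂ s, fun s => x * (g * y₁ s)] (by
        intro i
        fin_cases i
        · exact hi₂
        · exact fun s t h => hi₁ (mul_left_cancel h)
        · exact fun s t h => hi₂ (mul_left_cancel h)
        · exact fun s t h => hi₁ (mul_left_cancel (mul_left_cancel h)))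
    fin_cases i <;> fin_cases j <;> simp at hij h
    · exact absurd h (hD t s).2
    · refine ⟨_, h, y₂ s / y₂ t, (hFm _ _).2.1, 1, hF1, ?_⟩
      rw [mul_one, idB]
    · refine ⟨_, h, (P t s)⁻¹, (hFm _ _).2.2.2.2.1, (Q t s)⁻¹, (hFm _ _).2.2.2.2.2, ?_⟩
      rw [← mul_inv, ← hPQ, inv_div, idB]
    · refine ⟨_, h, P s t, (hFm _ _).2.2.1, Q s t, (hFm _ _).2.2.2.1, ?_⟩
      rw [← hPQ, idB]
    · refine ⟨_, h, y₁ s / y₁ t, (hFm _ _).1, 1, hF1, ?_⟩
      rw [mul_one]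
      have : y₁ s / y₁ t = (g * y₁ s) / (g * y₁ t) := by rw [mul_div_mul_left_eq_div]
      rw [this, idB]
    · exfalso
      exact (hD t s).2 h
  · intro c
    obtain ⟨i, j, hij, s, hs, a, b, h⟩ := part4 hF y₁ hi₁ c
    exact ⟨i, j, hij, s, hs, _, (hFm a b).1, h⟩

/-- second case: no element has the type `S S \ S` -/
theorem case2 {K : ℕ} {S : Set G} (h1 : (1 : G) ∈ S) (hinv : ∀ s ∈ S, s⁻¹ ∈ S) (hF : Four K S)
    (U : Ultrafilter ℕ) (hU : (U : Filter ℕ) ≤ atTop) (z : ℕ → G) (hz : Function.Injective z)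
    (hg : ∀ g, ¬ Lim U z (Two S \ S) g) :
    ∃ H : Subgroup G, (H : Set G) = Two S ∧ S ⊆ H ∧ (∀ g : Fin 4 → G, ∃ i j, i ≠ j ∧ g i / g j ∈ H) ∧
      ∃ F : Finset G, (F : Set G) ⊆ S ∧ 1 ∈ F ∧
        (∀ h ∈ H, ∃ s ∈ S, ∃ f₁ ∈ F, ∃ f₂ ∈ F, h = s * (f₁ * f₂)) ∧
        (H ≠ ⊤ → ∀ h ∈ H, ∃ s ∈ S, ∃ f ∈ F, h = s * f) ∧
        (∀ g : Fin 4 → G, ∃ i j, i ≠ j ∧ ∃ s ∈ S, ∃ f ∈ F, g i / g j = s * f) := by
  classical
  have hs1 := step1 hinv hF U hU z hz
  have hs1' : ∀ᶠ i in (U : Filter ℕ), ∀ᶠ j in (U : Filter ℕ), z i / z j ∈ S := by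
    refine hs1.mono fun i hi => hi.mono fun j hj => ?_
    rwa [one_mul] at hj
  -- the dichotomy
  have key : ∀ g, Lim U z (Two S) g → Lim U z S g := by
    intro g h
    have h2 := lim_not U z _ g (hg g)
    have h3 : Lim U z (S ∪ (Two S)ᶜ) g := by
      refine lim_mono U z ?_ g h2
      intro x hx
      by_cases hxS : x ∈ S
      · exact Or.inl hxS
      · exact Or.inr fun hx2 => hx ⟨hx2, hxS⟩
    rcases lim_or U z _ _ g h3 with h4 | h4
    · exact h4
    · exact (lim_false U z _ g h h4).elim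
  let H : Subgroup G :=
    { carrier := {g | Lim U z S g}
      one_mem' := hs1
      mul_mem' := by
        intro g h hg' hh
        apply key
        change ∀ᶠ i in (U : Filter ℕ), ∀ᶠ k in (U : Filter ℕ), g * z i / z k ∈ S at hg'
        change ∀ᶠ i in (U : Filter ℕ), ∀ᶠ k in (U : Filter ℕ), h * z i / z k ∈ S at hh
        refine hg'.mono fun i hi => ?_
        obtain ⟨k, hk1, hk2⟩ := (hi.and hh).exists
        refine hk2.mono fun j hj => ⟨_, hk1, _, hj, ?_⟩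
        simp only [div_eq_mul_inv]
        have : g * z i * (z k)⁻¹ * (h * z k * (z j)⁻¹) = (g * h * z i * (z j)⁻¹) * ((z k)⁻¹ * z k) := by
          simp only [mul_assoc, mul_left_comm, mul_comm]
        rw [this, inv_mul_cancel, mul_one]
      inv_mem' := by
        intro g hg'
        apply key
        change ∀ᶠ i in (U : Filter ℕ), ∀ᶠ k in (U : Filter ℕ), g * z i / z k ∈ S at hg'
        obtain ⟨k, hk1, hk2⟩ := (hg'.and hs1').exists
        refine hk1.mono fun i hi => ?_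
        refine hk2.mono fun j hj => ⟨_, hinv _ hi, _, hj, ?_⟩
        simp only [div_eq_mul_inv, mul_inv, inv_inv]
        have : g⁻¹ * (z k)⁻¹ * z i * (z k * (z j)⁻¹) = (g⁻¹ * z i * (z j)⁻¹) * ((z k)⁻¹ * z k) := by
          simp only [mul_assoc, mul_left_comm, mul_comm]
        rw [this, inv_mul_cancel, mul_one] }
  have hHm : ∀ g, g ∈ H ↔ Lim U z S g := fun g => Iff.rfl
  have hSH : S ⊆ H := by
    intro s hs
    apply key
    refine hs1'.mono fun i hi => hi.mono fun j hj => ⟨s, hs, _, hj, ?_⟩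
    rw [mul_div_assoc]
  have hHD : (H : Set G) = Two S := by
    ext g
    constructor
    · intro hg'
      have hg'' : ∀ᶠ i in (U : Filter ℕ), ∀ᶠ k in (U : Filter ℕ), g * z i / z k ∈ S := hg'
      obtain ⟨i, hi1, hi2⟩ := (hg''.and hs1').exists
      obtain ⟨j, hj1, hj2⟩ := (hi1.and hi2).exists
      refine ⟨_, hj1, _, hinv _ hj2, ?_⟩
      rw [inv_div, idB]
    · rintro ⟨s, hs, t, ht, rfl⟩
      exact H.mul_mem (hSH hs) (hSH ht)
  obtain ⟨f, hf, hR⟩ := seq hU _ hs1'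
  have hyS := good_seq h1 hinv f z hR
  obtain ⟨y, hy⟩ : ∃ y : Fin K → G, y = fun s : Fin K => z (f s) := ⟨_, rfl⟩
  have hi : Function.Injective y := by
    intro s t h
    rw [hy] at h
    exact Fin.ext (hf.injective (hz h))
  have hS : ∀ s t, y s / y t ∈ S := fun s t => by rw [hy]; exact hyS _ _
  have hmem : ∀ (x : G) (s t), x * (y s / y t) ∈ S → x ∈ H := by
    intro x s t h
    have h3 : x = x * (y s / y t) * (y t / y s) := by
      rw [mul_assoc, div_mul_div_cancel, div_self', mul_one]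
    rw [h3]
    exact H.mul_mem (hSH h) (hSH (hS _ _))
  obtain ⟨E, hE⟩ := syndetic hinv hF y hi
  have hED : ∀ e : G, ∃ p q : G, p ∈ S ∧ q ∈ S ∧ (e ∈ H → e = p * q) := by
    intro e
    by_cases he : e ∈ H
    · have he' : e ∈ Two S := by rw [← hHD]; exact he
      obtain ⟨p, hp, q, hq, h⟩ := he'
      exact ⟨p, q, hp, hq, fun _ => h⟩
    · exact ⟨1, 1, h1, h1, fun h => absurd h he⟩
  choose P Q hP hQ hPQ using hED
  obtain ⟨F, hFd⟩ : ∃ F : Finset G, F = {1} ∪ Finset.univ.image (fun u : Fin K × Fin K => y u.1 / y u.2) ∪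
    (E.image P ∪ E.image Q) := ⟨_, rfl⟩
  have hF1 : (1 : G) ∈ F := by rw [hFd]; simp
  have hFy : ∀ s t, y s / y t ∈ F := by
    intro s t
    rw [hFd, Finset.mem_union, Finset.mem_union]
    left; right
    exact Finset.mem_image.2 ⟨(s, t), Finset.mem_univ _, rfl⟩
  have hFP : ∀ e ∈ E, P e ∈ F ∧ Q e ∈ F := by
    intro e he
    rw [hFd]
    simp only [Finset.mem_union]
    exact ⟨Or.inr (Or.inl (Finset.mem_image_of_mem _ he)), Or.inr (Or.inr (Finset.mem_image_of_mem _ he))⟩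
  have hFS : (F : Set G) ⊆ S := by
    intro x hx
    rw [hFd, Finset.mem_coe] at hx
    simp only [Finset.mem_union, Finset.mem_singleton, Finset.mem_image] at hx
    rcases hx with (h | ⟨u, -, h⟩) | (⟨u, -, h⟩ | ⟨u, -, h⟩)
    · rw [h]; exact h1
    · rw [← h]; exact hS _ _
    · rw [← h]; exact hP _
    · rw [← h]; exact hQ _
  have hone : H ≠ ⊤ → ∀ h ∈ H, ∃ s ∈ S, ∃ f ∈ F, h = s * f := by
    intro hne x hx
    obtain ⟨g, hgH⟩ : ∃ g, g ∉ H := by
      by_contra hcon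
      push Not at hcon
      exact hne (eq_top_iff.2 fun g _ => hcon g)
    obtain ⟨i, j, hij, s, t, h⟩ := four_mul_lt hinv hF y hi ![1, x, g, g * x]
    have h4 := hmem _ s t h
    have hA : ∀ a b : Fin K, x * (y a / y b) ∈ S → ∃ s ∈ S, ∃ f ∈ F, x = s * f := by
      intro a b hab
      refine ⟨_, hab, _, hFy b a, ?_⟩
      rw [mul_assoc, div_mul_div_cancel, div_self', mul_one]
    fin_cases i <;> fin_cases j <;> simp at hij h h4
    · exact hA _ _ h
    · exact absurd h4 hgH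
    · exact absurd ((H.mul_mem_cancel_right hx).1 h4) hgH
    · refine absurd ?_ hgH
      have h5 := H.mul_mem h4 hx
      rwa [div_mul_cancel] at h5
    · exact absurd h4 hgH
    · exact hA _ _ h
  refine ⟨H, hHD, hSH, ?_, F, hFS, hF1, ?_, hone, ?_⟩
  · intro g
    obtain ⟨i, j, hij, s, t, h⟩ := four_mul hF y hi g
    exact ⟨i, j, hij, hmem _ s t h⟩
  · intro x hx
    by_cases hH : H = ⊤
    · obtain ⟨s, hs, e, he, h⟩ := hE x
      refine ⟨s, hs, P e, (hFP e he).1, Q e, (hFP e he).2, ?_⟩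
      rw [← hPQ e (by rw [hH]; trivial)]
      exact h
    · obtain ⟨s, hs, f, hf', h⟩ := hone hH x hx
      exact ⟨s, hs, f, hf', 1, hF1, by rw [mul_one]; exact h⟩
  · intro c
    obtain ⟨i, j, hij, s, hs, a, b, h⟩ := part4 hF y hi c
    exact ⟨i, j, hij, s, hs, _, hFy a b, h⟩

/-- a subgroup which contains a quotient of any four elements has index at most three -/
theorem index_le {H : Subgroup G} (h : ∀ g : Fin 4 → G, ∃ i j, i ≠ j ∧ g i / g j ∈ H) :
    H.index ≠ 0 ∧ H.index ≤ 3 := by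
  classical
  have hcard : ∀ e : Fin 4 → G ⧸ H, ¬ Function.Injective e := by
    intro e he
    obtain ⟨i, j, hij, hm⟩ := h (fun i => (e i).out)
    apply hij
    apply he
    have h1 : ((e i).out : G ⧸ H) = ((e j).out : G ⧸ H) := by
      rw [QuotientGroup.eq_iff_div_mem]
      exact hm
    rwa [QuotientGroup.out_eq', QuotientGroup.out_eq'] at h1
  have hfin : Finite (G ⧸ H) := by
    by_contra hinf
    rw [not_finite_iff_infinite] at hinf
    exact hcard (fun i => Infinite.natEmbedding (G ⧸ H) i)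
      (fun i j hij => Fin.ext ((Infinite.natEmbedding (G ⧸ H)).injective hij))
  refine ⟨Subgroup.index_ne_zero_of_finite, ?_⟩
  by_contra hlt
  push Not at hlt
  haveI := Fintype.ofFinite (G ⧸ H)
  have h3 : 4 ≤ Fintype.card (G ⧸ H) := by
    rw [Subgroup.index_eq_card, Nat.card_eq_fintype_card] at hlt
    omega
  obtain ⟨e⟩ : Nonempty (Fin 4 ↪ G ⧸ H) := by
    rw [Function.Embedding.nonempty_iff_card_le, Fintype.card_fin]
    exact h3
  exact hcard e e.injective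

theorem main [Infinite G] {K : ℕ} {S : Set G} (h1 : (1 : G) ∈ S) (hinv : ∀ s ∈ S, s⁻¹ ∈ S)
    (hF : Four K S) :
    ∃ H : Subgroup G, S ⊆ H ∧ (H.index ≠ 0 ∧ H.index ≤ 3) ∧
      ∃ F : Finset G, (F : Set G) ⊆ S ∧ 1 ∈ F ∧
        (∀ h ∈ H, ∃ s ∈ S, ∃ f₁ ∈ F, ∃ f₂ ∈ F, h = s * (f₁ * f₂)) ∧
        (H ≠ ⊤ → ∀ h ∈ H, ∃ s ∈ S, ∃ f ∈ F, h = s * f) ∧
        (∀ g : Fin 4 → G, ∃ i j, i ≠ j ∧ ∃ s ∈ S, ∃ f ∈ F, g i / g j = s * f) := by
  have hU : ((hyperfilter ℕ : Ultrafilter ℕ) : Filter ℕ) ≤ atTop := Nat.hyperfilter_le_atTop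
  have hz := (Infinite.natEmbedding G).injective
  by_cases hg : ∃ g, Lim (hyperfilter ℕ) (Infinite.natEmbedding G) (Two S \ S) g
  · obtain ⟨g, hg⟩ := hg
    obtain ⟨F, hFS, hF1, hF2, hF3⟩ := case1 h1 hinv hF _ hU _ hz g hg
    refine ⟨⊤, fun _ _ => trivial, ?_, F, hFS, hF1, fun h _ => hF2 h, fun h => absurd rfl h, hF3⟩
    rw [Subgroup.index_top]
    norm_num
  · push Not at hg
    obtain ⟨H, -, hSH, hH4, F, hFS, hF1, hF2, hF3, hF4⟩ := case2 h1 hinv hF _ hU _ hz hg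
    exact ⟨H, hSH, index_le hH4, F, hFS, hF1, hF2, hF3, hF4⟩

end Q178.RS
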