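import Pool.Agent.Q178.RS.Primes
import Pool.Agent.H732R3.QuarterEv

/-! Clusters of primes in a residue class, from the coloured Maynard-Tao theorem. -/

set_option autoImplicit false

open Finset MeasureTheory Filter Asymptotics Topology

namespace Pool.Agent.Q178.RS

open Pool.Agent.H706R2.PS
open Pool.Agent.H732R3.BigQ

/-- primes `≡ b mod q` followed by at least `m` primes of the same class at distance at most `B` -/
def CL (m q b B : ℕ) : Set ℕ := {p | p.Prime ∧ p ≡ b [MOD q] ∧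
  m ≤ ((Ioc p (p + B)).filter (fun p' => p'.Prime ∧ p' ≡ b [MOD q])).card}

theorem cluster_adm (q b t : ℕ) (hb : b.Coprime q) (β : Fin t → ℕ) (hβ : ∀ i, t.factorial ∣ β i)
    (p : ℕ) (hp : p.Prime) : ∃ n : ℤ, ∀ i, ¬ ((p : ℤ) ∣ (q : ℤ) * n + ((b : ℤ) + q * β i)) := by
  by_cases hpq : p ∣ q
  · refine ⟨0, fun i h => ?_⟩
    have h1 : (p : ℤ) ∣ (q : ℤ) * β i := Dvd.dvd.mul_right (by exact_mod_cast hpq) _
    have h2 : (p : ℤ) ∣ (b : ℤ) := by
      have h3 := dvd_sub h h1
      have e : (q : ℤ) * 0 + ((b : ℤ) + q * β i) - q * β i = b := by ring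
      rwa [e] at h3
    have h3 : p ∣ b := by exact_mod_cast h2
    exact hp.one_lt.ne' (Nat.dvd_one.1 (hb ▸ Nat.dvd_gcd h3 hpq))
  · have hpq' : ¬ (p : ℤ) ∣ (q : ℤ) := by exact_mod_cast hpq
    by_cases hpt : p ≤ t
    · have hd : ∀ i, (p : ℤ) ∣ (q : ℤ) * β i := fun i => by
        have : p ∣ β i := ((Nat.Prime.dvd_factorial hp).2 hpt).trans (hβ i)
        exact Dvd.dvd.mul_left (by exact_mod_cast this) _
      by_cases hpb : (p : ℤ) ∣ (b : ℤ)
      · refine ⟨1, fun i h => hpq' ?_⟩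
        have h3 := dvd_sub (dvd_sub h (hd i)) hpb
        have e : (q : ℤ) * 1 + ((b : ℤ) + q * β i) - q * β i - b = q := by ring
        rwa [e] at h3
      · refine ⟨0, fun i h => hpb ?_⟩
        have h3 := dvd_sub h (hd i)
        have e : (q : ℤ) * 0 + ((b : ℤ) + q * β i) - q * β i = b := by ring
        rwa [e] at h3
    · by_contra hcon
      push Not at hcon
      choose f hf using hcon
      have hcard : (univ : Finset (Fin t)).card < (range (t + 1)).card := by
        rw [card_univ, Fintype.card_fin, card_range]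
        omega
      obtain ⟨x, hx, y, hy, hxy, hfxy⟩ := Finset.exists_ne_map_eq_of_card_lt_of_maps_to
        (f := fun n : ℕ => f (n : ℤ)) hcard (fun n _ => mem_univ _)
      rw [mem_range] at hx hy
      have h1 := hf (x : ℤ)
      have h2 := hf (y : ℤ)
      have hfxy' : f (x : ℤ) = f (y : ℤ) := hfxy
      rw [hfxy'] at h1
      have h3 := dvd_sub h1 h2
      have e : (q : ℤ) * (x : ℤ) + ((b : ℤ) + q * β (f (y : ℤ))) - ((q : ℤ) * (y : ℤ) + ((b : ℤ) + q * β (f (y : ℤ)))) =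
          q * ((x : ℤ) - y) := by ring
      rw [e] at h3
      have hpp : Prime (p : ℤ) := Nat.prime_iff_prime_int.1 hp
      rcases hpp.dvd_or_dvd h3 with h4 | h4
      · exact hpq' h4
      · have h5 := Int.le_of_dvd (a := (p : ℤ)) (b := |(x : ℤ) - y|) (abs_pos.2 (sub_ne_zero.2 (by exact_mod_cast hxy)))
          ((dvd_abs _ _).2 h4)
        have h6 : |(x : ℤ) - y| ≤ t := by
          rw [abs_le]
          constructor <;> omega
        omega

theorem cluster (m q b : ℕ) (hq : 0 < q) (hb : b.Coprime q) : ∃ B : ℕ, ∀ η : ℝ, 0 < η →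
    ∀ᶠ n : ℕ in atTop, (n : ℝ) ^ (1 - η) ≤ ((Ax (CL m q b B) 0 n).card : ℝ) := by
  classical
  obtain ⟨K, hK1, hK⟩ := quarterEv (4 * (m + 1))
  set T : ℕ := 4 * (m + 1) with hT
  set e : Fin T × Fin K ≃ Fin (T * K) := finProdFinEquiv with he
  set M : ℕ := (T * K).factorial with hM
  have hM0 : 0 < M := Nat.factorial_pos _
  set B : ℕ := q * (M * (T * K)) with hB
  refine ⟨B, fun η hη => ?_⟩
  have hmain := hK (fun _ _ => (q : ℤ)) (fun g i => (b : ℤ) + q * ((M * (e (g, i) : ℕ) : ℕ) : ℤ))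
    (fun _ _ => by exact_mod_cast hq)
    (by
      rintro ⟨g, i⟩ ⟨g', i'⟩ h
      simp only [Prod.mk.injEq, true_and] at h
      have h1 : (q : ℤ) * ((M * (e (g, i) : ℕ) : ℕ) : ℤ) = q * ((M * (e (g', i') : ℕ) : ℕ) : ℤ) := by linarith
      have h2 : q * (M * (e (g, i) : ℕ)) = q * (M * (e (g', i') : ℕ)) := by exact_mod_cast h1
      have h3 := Nat.eq_of_mul_eq_mul_left hM0 (Nat.eq_of_mul_eq_mul_left hq h2)
      exact e.injective (Fin.ext h3))
    (by
      intro p hp
      obtain ⟨n, hn⟩ := cluster_adm q b (T * K) hb (fun j => M * (j : ℕ)) (fun j => Dvd.intro _ rfl) p hp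
      exact ⟨n, fun g i => hn (e (g, i))⟩)
    (η / 2) (by linarith)
  have hx : Tendsto (fun n : ℕ => (n : ℝ) / (2 * q)) atTop atTop :=
    tendsto_natCast_atTop_atTop.atTop_div_const (by positivity)
  have hg : Tendsto (fun n : ℕ => (n : ℝ) ^ (η / 2)) atTop atTop :=
    (tendsto_rpow_atTop (by linarith)).comp tendsto_natCast_atTop_atTop
  filter_upwards [hx.eventually hmain, hg.eventually_ge_atTop (((2 * q : ℝ)) ^ (1 - η / 2)),
    eventually_ge_atTop (2 * (b + B)), eventually_ge_atTop 1] with n hn1 hn2 hn3 hn4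
  have hn0 : (0 : ℝ) < n := by exact_mod_cast hn4
  obtain ⟨S, cc, hS, hcount⟩ := hn1
  have hS1 : m + 1 ≤ S.card := by omega
  have hSne : S.Nonempty := Finset.card_pos.1 (by omega)
  obtain ⟨g0, hg0, hmin⟩ := S.exists_min_image (fun g => (e (g, cc g) : ℕ)) hSne
  have hinj : ∀ g ∈ S, ∀ g' ∈ S, (e (g, cc g) : ℕ) = e (g', cc g') → g = g' := by
    intro g _ g' _ h
    have := e.injective (Fin.ext h)
    simp only [Prod.mk.injEq] at this
    exact this.1
  -- size
  have hsize : (n : ℝ) ^ (1 - η) ≤ ((n : ℝ) / (2 * q)) ^ (1 - η / 2) := by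
    have hq' : (0 : ℝ) < 2 * q := by positivity
    rw [Real.div_rpow hn0.le hq'.le, le_div_iff₀ (Real.rpow_pos_of_pos hq' _)]
    have e1 : (n : ℝ) ^ (1 - η / 2) = (n : ℝ) ^ (1 - η) * (n : ℝ) ^ (η / 2) := by
      rw [← Real.rpow_add hn0]
      congr 1
      ring
    rw [e1]
    gcongr
  refine hsize.trans (hcount.trans ?_)
  rw [← Set.ncard_coe_finset]
  have hfin : ((Ax (CL m q b B) 0 n : Finset ℕ) : Set ℕ).Finite := Finset.finite_toSet _
  have key := Set.ncard_le_ncard_of_injOn (s := {n' : ℕ | n' ∈ {n' : ℕ | ∀ g ∈ S,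
      0 < (q : ℤ) * (n' : ℤ) + ((b : ℤ) + q * ((M * (e (g, cc g) : ℕ) : ℕ) : ℤ)) ∧
        Prime ((q : ℤ) * (n' : ℤ) + ((b : ℤ) + q * ((M * (e (g, cc g) : ℕ) : ℕ) : ℤ)))} ∧
        (n' : ℝ) ≤ (n : ℝ) / (2 * q)})
    (t := ((Ax (CL m q b B) 0 n : Finset ℕ) : Set ℕ))
    (fun n' => q * n' + (b + q * (M * (e (g0, cc g0) : ℕ)))) ?_ ?_ hfin
  · exact_mod_cast key
  · rintro n' ⟨hn', hle⟩
    have hpr : ∀ g ∈ S, (q * n' + (b + q * (M * (e (g, cc g) : ℕ)))).Prime := by
      intro g hg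
      have h1 := (hn' g hg).2
      rw [Nat.prime_iff_prime_int]
      push_cast at h1 ⊢
      exact h1
    have hle2 : ∀ g : Fin T, q * (M * (e (g, cc g) : ℕ)) ≤ B := by
      intro g
      rw [hB]
      exact Nat.mul_le_mul_left _ (Nat.mul_le_mul_left _ (e (g, cc g)).2.le)
    have hmod : ∀ g : Fin T, q * n' + (b + q * (M * (e (g, cc g) : ℕ))) ≡ b [MOD q] := by
      intro g
      have h1 : q * n' + (b + q * (M * (e (g, cc g) : ℕ))) = b + q * (n' + M * (e (g, cc g) : ℕ)) := by ring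
      rw [h1, Nat.ModEq, Nat.add_mul_mod_self_left]
    have hqn : 2 * (q * n') ≤ n := by
      have h2 : (n' : ℝ) * (2 * q) ≤ n := by
        rw [← le_div_iff₀ (by positivity)]
        exact hle
      have h3 : n' * (2 * q) ≤ n := by exact_mod_cast h2
      nlinarith
    rw [Finset.mem_coe, mem_Ax]
    have h0 := hle2 g0
    refine ⟨⟨(hpr g0 hg0).pos, by omega⟩, hpr g0 hg0, hmod g0, ?_⟩
    have h5 : (S.erase g0).image (fun g => q * n' + (b + q * (M * (e (g, cc g) : ℕ)))) ⊆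
        (Ioc (q * n' + (b + q * (M * (e (g0, cc g0) : ℕ))))
          (q * n' + (b + q * (M * (e (g0, cc g0) : ℕ))) + B)).filter
          (fun p' => p'.Prime ∧ p' ≡ b [MOD q]) := by
      intro p' hp'
      obtain ⟨g, hg, rfl⟩ := mem_image.1 hp'
      rw [mem_erase] at hg
      rw [mem_filter, mem_Ioc]
      refine ⟨⟨?_, ?_⟩, hpr g hg.2, hmod g⟩
      · have h6 : (e (g0, cc g0) : ℕ) < e (g, cc g) := by
          refine lt_of_le_of_ne (hmin g hg.2) fun h => hg.1 (hinj g hg.2 g0 hg0 h.symm)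
        have h7 : q * (M * (e (g0, cc g0) : ℕ)) < q * (M * (e (g, cc g) : ℕ)) :=
          Nat.mul_lt_mul_of_pos_left (Nat.mul_lt_mul_of_pos_left h6 hM0) hq
        omega
      · have := hle2 g
        omega
    have h6 := Finset.card_le_card h5
    rw [Finset.card_image_of_injOn, Finset.card_erase_of_mem hg0] at h6
    · omega
    · intro g hg g' hg' h
      have hg2 := Finset.mem_of_mem_erase (Finset.mem_coe.1 hg)
      have hg2' := Finset.mem_of_mem_erase (Finset.mem_coe.1 hg')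
      simp only [add_right_inj] at h
      have h3 := Nat.eq_of_mul_eq_mul_left hM0 (Nat.eq_of_mul_eq_mul_left hq h)
      exact hinj g hg2 g' hg2' h3
  · intro x _ y _ h
    simp only [add_left_inj] at h
    exact Nat.eq_of_mul_eq_mul_left hq h

end Pool.Agent.Q178.RS
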