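import Mathlib
import Pool.Agent.Q165.SlopeDef

/-!
# The family `a p - b q = κ (a - b)`: definitions

`a p - b q = κ (a - b)` if and only if `(p - κ) / (q - κ) = b / a`.
-/

set_option autoImplicit false

namespace Q178.RS

/-- the group of the positive rational numbers whose numerator and denominator are prime to `κ` -/
def adm (κ : ℤ) : Subgroup ℚˣ where
  carrier := {u | 0 < (u : ℚ) ∧ IsCoprime (u : ℚ).num κ ∧ IsCoprime ((u : ℚ).den : ℤ) κ}
  one_mem' := by
    refine ⟨by norm_num, ?_, ?_⟩ <;> simp [isCoprime_one_left]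
  mul_mem' := by
    rintro u v ⟨hu, hu1, hu2⟩ ⟨hv, hv1, hv2⟩
    refine ⟨by rw [Units.val_mul]; exact mul_pos hu hv, ?_, ?_⟩
    · rw [Units.val_mul]
      refine IsCoprime.of_isCoprime_of_dvd_left (hu1.mul_left hv1) ?_
      rw [Rat.mul_num]
      refine Int.ediv_dvd_of_dvd ?_
      rw [← Int.dvd_natAbs, Int.natCast_dvd_natCast]
      exact Nat.gcd_dvd_left _ _
    · rw [Units.val_mul]
      refine IsCoprime.of_isCoprime_of_dvd_left (hu2.mul_left hv2) ?_
      exact_mod_cast Rat.mul_den_dvd (u : ℚ) v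
  inv_mem' := by
    rintro u ⟨hu, hu1, hu2⟩
    have h0 : (u : ℚ).num ≠ 0 := Rat.num_ne_zero.2 hu.ne'
    have h1 : 0 < (u : ℚ).num := Rat.num_pos.2 hu
    refine ⟨by rw [Units.val_inv_eq_inv_val]; exact inv_pos.2 hu, ?_, ?_⟩
    · rw [Units.val_inv_eq_inv_val, Rat.num_inv, Int.sign_eq_one_of_pos h1, one_mul]
      exact hu2
    · rw [Units.val_inv_eq_inv_val, Rat.den_inv_of_ne_zero hu.ne', Int.natAbs_of_nonneg h1.le]
      exact hu1

/-- the equation `a p - b q = κ (a - b)`, `b / a = r` in lowest terms, is good: `(a, b, κ (a - b))` satisfies the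
hypotheses of the question and there are infinitely many (and many) prime solutions -/
def Solved (κ : ℤ) (r : ℚ) : Prop :=
  ∃ a b : ℕ, r = (b : ℚ) / a ∧ Q165.Slope.Good a b (κ * (a - b))

end Q178.RS
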