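import Pool.Agent.H706R2.PS.T12

/-! Abel summation with a density. -/

open Finset MeasureTheory Filter Asymptotics Topology

namespace Pool.Agent.Q178.RS

open Pool.Agent.H706R2.PS Pool.Agent.H706R2.PS.T12H

/-- Abel summation for a set of integers whose counting function is `~ δ n/log n` -/
theorem mainT_tendsto {A : Set ℕ} {c δ : ℝ} (hc : 1 < c)
    (hA : Tendsto (fun n : ℕ => ((Ax A 0 n).card : ℝ) * Real.log n / n) atTop (𝓝 δ)) :
    Tendsto (fun n : ℕ => mainT (Ax A 0 n) c * Real.log n / (n : ℝ) ^ (1 / c)) atTop (𝓝 δ) := by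
  classical
  set s : ℝ := 1 / c with hsdef
  have hs0 : 0 < s := by positivity
  have hs1 : s < 1 := by rw [hsdef, div_lt_one (by linarith)]; exact hc
  set a : ℕ → ℝ := fun n => ((Ax A 0 n).card : ℝ) with ha
  set f : ℕ → ℝ := fun n => s * (n : ℝ) ^ (s - 1) with hf
  have hmain : ∀ n, mainT (Ax A 0 n) c = a n * f n + ∑ i ∈ range n, a i * (f i - f (i + 1)) := by
    intro n
    exact abel A f n
  -- eventual monotonicity of G
  have hGpos : ∀ᶠ n : ℕ in atTop, 0 < (G s (n + 1) - G s n) * ((n : ℝ) ^ (1 - s) * Real.log n) :=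
    (limG s).eventually (lt_mem_nhds hs0)
  have hGpos' : ∀ᶠ n : ℕ in atTop, 0 < G s (n + 1) - G s n := by
    filter_upwards [hGpos, eventually_gt_atTop 1] with n hn hn1
    have h1' : (1 : ℝ) < n := by exact_mod_cast hn1
    have hl' : 0 < Real.log (n : ℝ) := Real.log_pos h1'
    have : 0 < (n : ℝ) ^ (1 - s) := Real.rpow_pos_of_pos (by linarith) _
    exact (pos_iff_pos_of_mul_pos hn).2 (by positivity)
  obtain ⟨N0, hN0⟩ := eventually_atTop.1 hGpos'
  let g : ℕ → ℝ := fun i => if N0 ≤ i then G s (i + 1) - G s i else 0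
  have hg0 : 0 ≤ g := by
    intro i
    simp only [g]
    split_ifs with h
    · exact (hN0 i h).le
    · exact le_rfl
  have hgsum : ∀ n, N0 ≤ n → ∑ i ∈ range n, g i = G s n - G s N0 := by
    intro n hn
    induction n, hn using Nat.le_induction with
    | base =>
      rw [sub_self]
      apply Finset.sum_eq_zero
      intro i hi
      have : ¬ N0 ≤ i := not_le.2 (mem_range.1 hi)
      simp only [g, if_neg this]
    | succ n hn ih =>
      rw [sum_range_succ, ih]
      simp only [g, if_pos hn]
      ring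
  have hgsum' : (fun n => ∑ i ∈ range n, g i) =ᶠ[atTop] fun n => G s n - G s N0 := by
    filter_upwards [eventually_ge_atTop N0] with n hn using hgsum n hn
  have hgtop : Tendsto (fun n => ∑ i ∈ range n, g i) atTop atTop := by
    refine Tendsto.congr' hgsum'.symm ?_
    exact tendsto_atTop_add_const_right _ _ (G_atTop hs0)
  -- ratio of the terms
  have hr1 : Tendsto (fun i : ℕ => a i * (f i - f (i + 1)) * ((i : ℝ) ^ (1 - s) * Real.log i)) atTop
      (𝓝 (δ * (s * (1 - s)))) := by
    have h1 := hA.mul (limD s)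
    refine h1.congr' ?_
    filter_upwards [eventually_gt_atTop 0] with n hn
    have h0 : (0 : ℝ) < n := by exact_mod_cast hn
    have e2 : (n : ℝ) ^ (2 - s) = n * (n : ℝ) ^ (1 - s) := by
      have : (2 : ℝ) - s = 1 + (1 - s) := by ring
      rw [this, Real.rpow_add h0, Real.rpow_one]
    simp only [ha, hf]
    rw [e2]
    field_simp
  have hr2 : Tendsto (fun i : ℕ => g i * ((i : ℝ) ^ (1 - s) * Real.log i)) atTop (𝓝 s) := by
    refine (limG s).congr' ?_
    filter_upwards [eventually_ge_atTop N0] with n hn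
    simp only [g, if_pos hn]
  have hr3 : Tendsto (fun i : ℕ => (a i * (f i - f (i + 1)) - (δ * (1 - s)) * g i) / g i) atTop (𝓝 0) := by
    have h1 := (hr1.sub (hr2.const_mul (δ * (1 - s)))).div hr2 hs0.ne'
    have e : (δ * (s * (1 - s)) - (δ * (1 - s)) * s) / s = 0 := by
      have : δ * (s * (1 - s)) - (δ * (1 - s)) * s = 0 := by ring
      rw [this, zero_div]
    rw [e] at h1
    refine h1.congr' ?_
    filter_upwards [eventually_gt_atTop 1] with n hn
    have h1' : (1 : ℝ) < n := by exact_mod_cast hn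
    have hl' : 0 < Real.log (n : ℝ) := Real.log_pos h1'
    have hp : 0 < (n : ℝ) ^ (1 - s) := Real.rpow_pos_of_pos (by linarith) _
    have hne : (n : ℝ) ^ (1 - s) * Real.log n ≠ 0 := by positivity
    simp only [Pi.sub_apply, Pi.div_apply]
    rw [← mul_assoc (δ * (1 - s)), ← sub_mul, mul_div_mul_right _ _ hne]
  have hgne : ∀ᶠ i : ℕ in atTop, g i ≠ 0 := by
    filter_upwards [eventually_ge_atTop N0] with n hn
    simp only [g, if_pos hn]
    exact (hN0 n hn).ne'
  have hlo : (fun i : ℕ => a i * (f i - f (i + 1)) - (δ * (1 - s)) * g i) =o[atTop] g := by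
    rw [isLittleO_iff_tendsto' (hgne.mono fun i hi h => absurd h hi)]
    exact hr3
  have hsum := hlo.sum_range hg0 hgtop
  have hsum' := hsum.tendsto_div_nhds_zero
  -- ratio of the sum of g and G
  have hGG : Tendsto (fun n => (∑ i ∈ range n, g i) / G s n) atTop (𝓝 1) := by
    have h1 : Tendsto (fun n => 1 - G s N0 / G s n) atTop (𝓝 (1 - 0)) :=
      tendsto_const_nhds.sub ((tendsto_const_nhds).div_atTop (G_atTop hs0))
    rw [sub_zero] at h1
    refine h1.congr' ?_
    filter_upwards [hgsum', (G_atTop hs0).eventually_gt_atTop 0] with n hn hn1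
    rw [hn, sub_div, div_self hn1.ne']
  have hT : Tendsto (fun n => (∑ i ∈ range n, a i * (f i - f (i + 1))) / G s n) atTop
      (𝓝 (δ * (1 - s))) := by
    have h1 := (hsum'.add_const (δ * (1 - s))).mul hGG
    rw [zero_add, mul_one] at h1
    refine h1.congr' ?_
    filter_upwards [hgtop.eventually_gt_atTop 0] with n hn
    rw [Finset.sum_sub_distrib, ← Finset.mul_sum]
    have hne := hn.ne'
    field_simp
    ring
  have hF : Tendsto (fun n => a n * f n / G s n) atTop (𝓝 (δ * s)) := by
    have h1 := hA.mul_const s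
    refine h1.congr' ?_
    filter_upwards [eventually_gt_atTop 1] with n hn
    have h1' : (1 : ℝ) < n := by exact_mod_cast hn
    have h0 : (0 : ℝ) < n := by linarith
    have hl' : 0 < Real.log (n : ℝ) := Real.log_pos h1'
    have hp : 0 < (n : ℝ) ^ s := Real.rpow_pos_of_pos (by linarith) _
    simp only [ha, hf, G]
    rw [Real.rpow_sub h0, Real.rpow_one]
    field_simp
  have hfin := hF.add hT
  have e : δ * s + δ * (1 - s) = δ := by ring
  rw [e] at hfin
  refine hfin.congr ?_
  intro n
  rw [hmain n, ← add_div]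
  simp only [G]
  rw [div_div_eq_mul_div]

end Pool.Agent.Q178.RS
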