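import Pool.Agent.Q178.RS.Power
import Pool.Agent.Q178.RS.Cluster

/-! Final assembly. -/

set_option autoImplicit false

open Finset MeasureTheory Filter Asymptotics Topology

namespace Pool.Agent.Q178.RS

open Pool.Agent.H706R2.PS
open Pool.Agent.H706R2.PS.A13aux
open Pool.Agent.H732R3.BigQ

open Classical in
/-- number of `n ≤ N` with `⌊α n^c⌋ ∈ P` -/
noncomputable def cnt (P : Set ℕ) (c α : ℝ) (N : ℕ) : ℕ :=
  ((Icc 1 N).filter (fun n : ℕ => ⌊α * (n : ℝ) ^ c⌋₊ ∈ P)).card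

theorem cnt_close (P : Set ℕ) {c α : ℝ} (hc : 1 < c) (hα : 0 < α) (N : ℕ) :
    nA P c α N ≤ cnt P c α N ∧ cnt P c α N ≤ nA P c α N + (⌊(1 / α) ^ (1 / c)⌋₊) := by
  classical
  have hc0 : 0 < c := by linarith
  have e1 : nA P c α N = ((Icc 1 N).filter (fun n : ℕ => 1 ≤ ⌊α * (n : ℝ) ^ c⌋₊ ∧
      ⌊α * (n : ℝ) ^ c⌋₊ ∈ P)).card := by
    unfold nA
    rw [← Set.ncard_coe_finset]
    congr 1
    ext n
    simp only [Set.mem_ofPred_eq, Finset.coe_filter, mem_Icc]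
    tauto
  constructor
  · rw [e1]
    unfold cnt
    apply Finset.card_le_card
    intro n hn
    rw [mem_filter] at hn ⊢
    exact ⟨hn.1, hn.2.2⟩
  · rw [e1]
    unfold cnt
    have h1 : (Icc 1 N).filter (fun n : ℕ => ⌊α * (n : ℝ) ^ c⌋₊ ∈ P) ⊆
        ((Icc 1 N).filter (fun n : ℕ => 1 ≤ ⌊α * (n : ℝ) ^ c⌋₊ ∧ ⌊α * (n : ℝ) ^ c⌋₊ ∈ P)) ∪
          Icc 1 ⌊(1 / α) ^ (1 / c)⌋₊ := by
      intro n hn
      rw [mem_filter, mem_Icc] at hn
      rw [mem_union, mem_filter, mem_Icc, mem_Icc]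
      by_cases h2 : 1 ≤ ⌊α * (n : ℝ) ^ c⌋₊
      · exact Or.inl ⟨hn.1, h2, hn.2⟩
      · right
        refine ⟨hn.1.1, Nat.le_floor ?_⟩
        have h3 : α * (n : ℝ) ^ c < 1 := by
          rw [← Nat.floor_eq_zero]
          omega
        have h4 : (n : ℝ) ^ c ≤ 1 / α := by
          rw [le_div_iff₀ hα]
          linarith
        calc (n : ℝ) = ((n : ℝ) ^ c) ^ (1 / c) := by
              rw [← Real.rpow_mul (by positivity), mul_one_div_cancel hc0.ne', Real.rpow_one]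
          _ ≤ _ := Real.rpow_le_rpow (by positivity) h4 (by positivity)
    have h2 := (Finset.card_le_card h1).trans (Finset.card_union_le _ _)
    rw [Nat.card_Icc] at h2
    omega

open Classical in
theorem mA_sum (P : Set ℕ) (c α : ℝ) (Y : ℕ) : mA c (AxA P 0 Y) 0 α =
    ∑ m ∈ (Icc 1 Y).filter (fun m => m ∈ P), 1 / c * α ^ (-(1 / c)) * (m : ℝ) ^ (1 / c - 1) := by
  unfold mA AxA
  rw [show Ioc 0 Y = Icc 1 Y by ext; simp only [mem_Ioc, mem_Icc]; omega]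
  refine Finset.sum_congr rfl fun m _ => ?_
  rw [add_zero]

/-- difference of the count and the main term -/
noncomputable def dif (P : Set ℕ) (c α : ℝ) (N : ℕ) : ℝ :=
  (cnt P c α N : ℝ) - mA c (AxA P 0 ⌊α * (N : ℝ) ^ c⌋₊) 0 α

/-- the law with room -/
theorem law_room (c : ℝ) (hc : 1 < c) : ∃ κ : ℝ, 0 < κ ∧ κ < 1 ∧ ∀ (A : ℕ → Set ℕ),
    ∃ E : Set ℝ, dimH E ≤ ENNReal.ofReal (1 - κ) ∧ ∀ α : ℝ, 0 < α → α ∉ E → ∀ D : ℝ,
      ∃ C : ℝ, 0 ≤ C ∧ ∀ N : ℕ, 1 ≤ N → ∀ k : ℕ, (k : ℝ) ≤ D * (N : ℝ) ^ (κ / 2) →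
      |dif (A k) c α N| ≤ C * (N : ℝ) ^ (1 - κ) := by
  classical
  have hc0 : 0 < c := by linarith
  obtain ⟨κ, hκ, hκ1, h⟩ := law_power c hc
  refine ⟨κ, hκ, hκ1, fun A => ?_⟩
  obtain ⟨E, hE, h⟩ := h A
  refine ⟨E, hE, fun α hα hnE D => ?_⟩
  obtain ⟨C, hC0, hC⟩ := h α hα hnE
  obtain ⟨C0, hC00, ht⟩ := triv hc hα
  set G : ℝ := (⌊(1 / α) ^ (1 / c)⌋₊ : ℝ) with hG
  have hG0 : 0 ≤ G := by positivity
  set W : ℝ := G + (1 / α + 1) + C0 * α ^ (1 / c) with hW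
  have hW0 : 0 ≤ W := by positivity
  have hclose : ∀ (P : Set ℕ) (N : ℕ), |(cnt P c α N : ℝ) - nA P c α N| ≤ G := by
    intro P N
    obtain ⟨h1, h2⟩ := cnt_close P hc hα N
    have h1' : (nA P c α N : ℝ) ≤ cnt P c α N := by exact_mod_cast h1
    have h2' : (cnt P c α N : ℝ) ≤ nA P c α N + G := by
      rw [hG]
      exact_mod_cast h2
    rw [abs_le]
    constructor <;> linarith
  have htriv : ∀ (P : Set ℕ) (N : ℕ), 1 ≤ N → |dif P c α N| ≤ W * N := by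
    intro P N hN
    have hN1 : (1 : ℝ) ≤ N := by exact_mod_cast hN
    have h1 := hclose P N
    obtain ⟨h2, h3⟩ := nA_close P hc.le hα N
    set Y : ℕ := ⌊α * (N : ℝ) ^ c⌋₊ with hY
    have hYle : (Y : ℝ) ≤ α * (N : ℝ) ^ c := Nat.floor_le (by positivity)
    have h4 : |∑ m ∈ Ioc 0 Y, (ft P c α m - mt P c α m)| ≤ C0 * α ^ (1 / c) * N := by
      rcases Nat.eq_zero_or_pos Y with h0 | hY1
      · rw [h0, Finset.Ioc_self, Finset.sum_empty, abs_zero]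
        positivity
      refine (ht P Y hY1).trans ?_
      have h5 : (Y : ℝ) ^ (1 / c) ≤ α ^ (1 / c) * N := by
        calc (Y : ℝ) ^ (1 / c) ≤ (α * (N : ℝ) ^ c) ^ (1 / c) :=
              Real.rpow_le_rpow (by positivity) hYle (by positivity)
          _ = _ := by
              rw [Real.mul_rpow hα.le (by positivity), ← Real.rpow_mul (by positivity),
                mul_one_div_cancel hc0.ne', Real.rpow_one]
      rw [mul_assoc]
      exact mul_le_mul_of_nonneg_left h5 hC00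
    unfold dif
    rw [← hY, mA_eq]
    rw [Finset.sum_sub_distrib] at h4
    have h6 : W * N = G * N + (1 / α + 1) * N + C0 * α ^ (1 / c) * N := by rw [hW]; ring
    have h7 : G ≤ G * N := le_mul_of_one_le_right hG0 hN1
    have h8 : 1 / α + 1 ≤ (1 / α + 1) * N := le_mul_of_one_le_right (by positivity) hN1
    rw [h6]
    rw [abs_le] at h1 h4 ⊢
    constructor <;> linarith [h1.1, h1.2, h4.1, h4.2]
  refine ⟨C + G + W * D ^ 2, by positivity, fun N hN k hk => ?_⟩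
  have hN1 : (1 : ℝ) ≤ N := by exact_mod_cast hN
  have hN0 : (0 : ℝ) < N := by linarith
  have hNκ : (1 : ℝ) ≤ (N : ℝ) ^ (1 - κ) := Real.one_le_rpow hN1 (by linarith)
  have hp : 0 < (N : ℝ) ^ (κ / 2) := by positivity
  have e2 : (N : ℝ) ^ κ = (N : ℝ) ^ (κ / 2) * (N : ℝ) ^ (κ / 2) := by
    rw [← Real.rpow_add hN0]
    congr 1
    ring
  rcases le_or_gt D ((N : ℝ) ^ (κ / 2)) with hD | hD
  · have hk2 : (k : ℝ) ≤ (N : ℝ) ^ κ := by
      rw [e2]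
      exact hk.trans (mul_le_mul_of_nonneg_right hD hp.le)
    have h1 := hC N hN k hk2
    have h2 := hclose (A k) N
    have h3 : |dif (A k) c α N| ≤ G + C * (N : ℝ) ^ (1 - κ) := by
      unfold dif
      rw [abs_le] at h1 h2 ⊢
      constructor <;> linarith [h1.1, h1.2, h2.1, h2.2]
    refine h3.trans ?_
    have h4 : G ≤ G * (N : ℝ) ^ (1 - κ) := le_mul_of_one_le_right hG0 hNκ
    have h5 : 0 ≤ W * D ^ 2 * (N : ℝ) ^ (1 - κ) := by positivity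
    linarith
  · refine (htriv (A k) N hN).trans ?_
    have h1 : (N : ℝ) ^ κ ≤ D ^ 2 := by
      rw [e2, sq]
      exact mul_le_mul hD.le hD.le hp.le (hp.le.trans hD.le)
    have h2 : (N : ℝ) = (N : ℝ) ^ κ * (N : ℝ) ^ (1 - κ) := by
      rw [← Real.rpow_add hN0]
      rw [show κ + (1 - κ) = 1 by ring, Real.rpow_one]
    have h3 : W * (N : ℝ) ≤ W * D ^ 2 * (N : ℝ) ^ (1 - κ) := by
      calc W * (N : ℝ) = W * ((N : ℝ) ^ κ * (N : ℝ) ^ (1 - κ)) := by rw [← h2]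
        _ ≤ W * (D ^ 2 * (N : ℝ) ^ (1 - κ)) := by gcongr
        _ = _ := by ring
    have h4 : 0 ≤ (C + G) * (N : ℝ) ^ (1 - κ) := by positivity
    linarith

/-- the law for one set -/
def Law1 (c κ : ℝ) (P : Set ℕ) (α : ℝ) : Prop :=
  ∃ C : ℝ, 0 ≤ C ∧ ∀ N : ℕ, 1 ≤ N → |dif P c α N| ≤ C * (N : ℝ) ^ (1 - κ)

theorem law1_law {c κ α : ℝ} {P : Set ℕ} (hc : 1 < c) (hα : 0 < α) (hκ : κ < 1) (h : Law1 c κ P α) :
    Law c κ P α := by
  obtain ⟨C, hC0, hC⟩ := h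
  set G : ℝ := (⌊(1 / α) ^ (1 / c)⌋₊ : ℝ) with hG
  have hG0 : 0 ≤ G := by positivity
  refine ⟨C + G, fun N hN => ?_⟩
  have hN1 : (1 : ℝ) ≤ N := by exact_mod_cast hN
  have hNκ : (1 : ℝ) ≤ (N : ℝ) ^ (1 - κ) := Real.one_le_rpow hN1 (by linarith)
  obtain ⟨h1, h2⟩ := cnt_close P hc hα N
  have h1' : (nA P c α N : ℝ) ≤ cnt P c α N := by exact_mod_cast h1
  have h2' : (cnt P c α N : ℝ) ≤ nA P c α N + G := by
    rw [hG]
    exact_mod_cast h2
  have h3 := hC N hN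
  have h4 : G ≤ G * (N : ℝ) ^ (1 - κ) := le_mul_of_one_le_right hG0 hNκ
  unfold dif at h3
  rw [add_mul]
  rw [abs_le] at h3 ⊢
  constructor <;> linarith [h3.1, h3.2]

/-- countable families, via the sequence version -/
theorem law_countable {c κ : ℝ} (h : ∀ (A : ℕ → Set ℕ),
    ∃ E : Set ℝ, dimH E ≤ ENNReal.ofReal (1 - κ) ∧ ∀ α : ℝ, 0 < α → α ∉ E → ∀ D : ℝ,
      ∃ C : ℝ, 0 ≤ C ∧ ∀ N : ℕ, 1 ≤ N → ∀ k : ℕ, (k : ℝ) ≤ D * (N : ℝ) ^ (κ / 2) →
      |dif (A k) c α N| ≤ C * (N : ℝ) ^ (1 - κ)) (hκ : 0 < κ) (ι : Type) [Countable ι] (P : ι → Set ℕ) :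
    ∃ E : Set ℝ, dimH E ≤ ENNReal.ofReal (1 - κ) ∧ ∀ α : ℝ, 0 < α → α ∉ E → ∀ j, Law1 c κ (P j) α := by
  rcases isEmpty_or_nonempty ι with hι | hι
  · exact ⟨∅, by simp, fun α _ _ j => (hι.false j).elim⟩
  obtain ⟨f, hf⟩ := exists_surjective_nat ι
  obtain ⟨E, hE, hE2⟩ := h (fun k => P (f k))
  refine ⟨E, hE, fun α hα hnE j => ?_⟩
  obtain ⟨k, rfl⟩ := hf j
  obtain ⟨C, hC0, hC⟩ := hE2 α hα hnE k
  refine ⟨C, hC0, fun N hN => hC N hN k ?_⟩
  have hN1 : (1 : ℝ) ≤ N := by exact_mod_cast hN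
  exact le_mul_of_one_le_right (Nat.cast_nonneg k) (Real.one_le_rpow hN1 (by positivity))

/-- asymptotics for sets with the density of the primes -/
theorem cnt_prime {c κ α δ : ℝ} {A : Set ℕ} (hc : 1 < c) (hκ : 0 < κ) (hκ1 : κ < 1) (hα : 0 < α)
    (hL : Law1 c κ A α)
    (hA : Tendsto (fun n : ℕ => ((Ax A 0 n).card : ℝ) * Real.log n / n) atTop (𝓝 δ)) :
    Tendsto (fun N : ℕ => (cnt A c α N : ℝ) / (N / Real.log N)) atTop (𝓝 (δ / c)) := by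
  have h1 := law_prime hc hκ hα (law1_law hc hα hκ1 hL) hA
  set G : ℝ := (⌊(1 / α) ^ (1 / c)⌋₊ : ℝ) with hG
  have hG0 : 0 ≤ G := by positivity
  have h2 : Tendsto (fun N : ℕ => G * (Real.log (N : ℝ) / N)) atTop (𝓝 0) := by
    have h1 : Tendsto (fun x : ℝ => Real.log x / x) atTop (𝓝 0) := by
      have := (isLittleO_log_rpow_atTop (show (0 : ℝ) < 1 by norm_num)).tendsto_div_nhds_zero
      simpa using this
    have := (h1.comp tendsto_natCast_atTop_atTop).const_mul G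
    rw [mul_zero] at this
    exact this
  have h3 : Tendsto (fun N : ℕ => (cnt A c α N : ℝ) / (N / Real.log N) - (nA A c α N : ℝ) / (N / Real.log N))
      atTop (𝓝 0) := by
    refine squeeze_zero_norm' ?_ h2
    filter_upwards [eventually_ge_atTop 2] with N hN
    have hN' : (2 : ℝ) ≤ N := by exact_mod_cast hN
    have hN0 : (0 : ℝ) < N := by linarith
    have hl : 0 < Real.log (N : ℝ) := Real.log_pos (by linarith)
    obtain ⟨h4, h5⟩ := cnt_close A hc hα N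
    have h4' : (nA A c α N : ℝ) ≤ cnt A c α N := by exact_mod_cast h4
    have h5' : (cnt A c α N : ℝ) ≤ nA A c α N + G := by
      rw [hG]
      exact_mod_cast h5
    rw [← sub_div, norm_div, Real.norm_eq_abs, Real.norm_eq_abs,
      abs_of_pos (show (0 : ℝ) < N / Real.log N by positivity)]
    have h6 : |(cnt A c α N : ℝ) - nA A c α N| ≤ G := by
      rw [abs_le]
      constructor <;> linarith
    calc _ ≤ G / (N / Real.log N) := by gcongr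
      _ = _ := by field_simp
  have h4 := h3.add h1
  rw [zero_add] at h4
  refine h4.congr fun N => ?_
  ring

/-- lower bounds -/
theorem cnt_many {c κ α : ℝ} {A : Set ℕ} (hc : 1 < c) (hκ : 0 < κ) (hκ1 : κ < 1) (hα : 0 < α)
    (hL : Law1 c κ A α)
    (hA : ∀ η : ℝ, 0 < η → ∀ᶠ n : ℕ in atTop, (n : ℝ) ^ (1 - η) ≤ ((Ax A 0 n).card : ℝ)) (η : ℝ)
    (hη : 0 < η) : ∀ᶠ N : ℕ in atTop, (N : ℝ) ^ (1 - η) ≤ (cnt A c α N : ℝ) := by
  filter_upwards [law_many hc hκ hα (law1_law hc hα hκ1 hL) hA η hη] with N hN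
  refine hN.trans ?_
  exact_mod_cast (cnt_close A hc hα N).1

theorem many_shift {B : Set ℕ} (a : ℤ)
    (hB : ∀ η : ℝ, 0 < η → ∀ᶠ n : ℕ in atTop, (n : ℝ) ^ (1 - η) ≤ ((Ax B 0 n).card : ℝ)) (η : ℝ)
    (hη : 0 < η) : ∀ᶠ n : ℕ in atTop, (n : ℝ) ^ (1 - η) ≤ ((Ax (shiftZ B a) 0 n).card : ℝ) := by
  set θ : ℝ := min (η / 2) (1 / 2) with hθ
  have hθ0 : 0 < θ := lt_min (by linarith) (by norm_num)
  have hθ1 : θ ≤ η / 2 := min_le_left _ _
  have hθ2 : θ ≤ 1 / 2 := min_le_right _ _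
  have h1 : Tendsto (fun n : ℕ => (n : ℝ) ^ (1 - θ)) atTop atTop :=
    (tendsto_rpow_atTop (by linarith)).comp tendsto_natCast_atTop_atTop
  have h2 : Tendsto (fun n : ℕ => (n : ℝ) ^ (η - θ)) atTop atTop :=
    (tendsto_rpow_atTop (by linarith)).comp tendsto_natCast_atTop_atTop
  filter_upwards [hB θ hθ0, h1.eventually_ge_atTop (2 * (a.natAbs : ℝ)), h2.eventually_ge_atTop 2,
    eventually_ge_atTop 1] with n hn1 hn2 hn3 hn4
  have hn0 : (0 : ℝ) < n := by exact_mod_cast hn4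
  have h3 := (shiftZ_card B a n).2
  have h3' : ((Ax B 0 n).card : ℝ) ≤ (Ax (shiftZ B a) 0 n).card + (a.natAbs : ℝ) := by exact_mod_cast h3
  have h4 : (n : ℝ) ^ (1 - θ) = (n : ℝ) ^ (η - θ) * (n : ℝ) ^ (1 - η) := by
    rw [← Real.rpow_add hn0]
    congr 1
    ring
  have h5 : 0 < (n : ℝ) ^ (1 - η) := by positivity
  nlinarith

end Pool.Agent.Q178.RS
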