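import Pool.Agent.Q178.RS.Primes
import Pool.Agent.H706R2.PS.Fin1
import Pool.Agent.H706R2.PS.A3
import Pool.Agent.H706R2.PS.A4
import Pool.Agent.H706R2.PS.A5
import Pool.Agent.H706R2.PS.A6
import Pool.Agent.H706R2.PS.A7
import Pool.Agent.H706R2.PS.A9
import Pool.Agent.H706R2.PS.A10a
import Pool.Agent.H706R2.PS.A10b
import Pool.Agent.H706R2.PS.A11
import Pool.Agent.H706R2.PS.A12
import Pool.Agent.H706R2.PS.A13
import Pool.Agent.H706R2.PS.A15
import Pool.Agent.H706R2.PS.W14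

/-! Consequences of the universal law for `⌊α n^c⌋`. -/

set_option autoImplicit false

open Finset MeasureTheory Filter Asymptotics Topology

namespace Pool.Agent.Q178.RS

open Pool.Agent.H706R2.PS

theorem law : A15 := a15 (a12 (a10b a3 (a10a (a7 a5 a6) (a9 a4))) a11) a13 w14

/-- the law for a set, an exponent `c`, an amplitude `α` with saving `κ` -/
def Law (c κ : ℝ) (A : Set ℕ) (α : ℝ) : Prop :=
  ∃ C : ℝ, ∀ N : ℕ, 1 ≤ N →
    |(nA A c α N : ℝ) - mA c (AxA A 0 ⌊α * (N : ℝ) ^ c⌋₊) 0 α| ≤ C * (N : ℝ) ^ (1 - κ)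

/-- countable families -/
theorem law_family (c : ℝ) (hc : 1 < c) : ∃ κ : ℝ, 0 < κ ∧ κ < 1 ∧ ∀ (ι : Type) [Countable ι] (A : ι → Set ℕ),
    ∃ E : Set ℝ, dimH E ≤ ENNReal.ofReal (1 - κ) ∧ ∀ α : ℝ, 0 < α → α ∉ E → ∀ j, Law c κ (A j) α := by
  obtain ⟨κ, hκ, d, hd, h⟩ := law c hc
  have hk : min κ (min (1 - d) (1 / 2)) ≤ κ := min_le_left _ _
  have hk2 : min κ (min (1 - d) (1 / 2)) ≤ 1 - d := (min_le_right _ _).trans (min_le_left _ _)
  have hk3 : min κ (min (1 - d) (1 / 2)) ≤ 1 / 2 := (min_le_right _ _).trans (min_le_right _ _)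
  refine ⟨min κ (min (1 - d) (1 / 2)), lt_min hκ (lt_min (by linarith) (by norm_num)), by linarith, ?_⟩
  intro ι _ A
  choose E hE1 hE2 using h
  refine ⟨⋃ j, E (A j), ?_, ?_⟩
  · rw [dimH_iUnion]
    refine iSup_le fun j => (hE1 _).trans (ENNReal.ofReal_le_ofReal (by linarith))
  · intro α hα hnE j
    rw [Set.mem_iUnion, not_exists] at hnE
    obtain ⟨C, hC⟩ := hE2 (A j) α hα (hnE j)
    refine ⟨|C|, fun N hN => (hC N hN).trans ?_⟩
    have hN' : (1 : ℝ) ≤ N := by exact_mod_cast hN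
    have h1 : (N : ℝ) ^ (1 - κ) ≤ (N : ℝ) ^ (1 - min κ (min (1 - d) (1 / 2))) :=
      Real.rpow_le_rpow_of_exponent_le hN' (by linarith)
    have h2 : 0 ≤ (N : ℝ) ^ (1 - κ) := by positivity
    calc C * (N : ℝ) ^ (1 - κ) ≤ |C| * (N : ℝ) ^ (1 - κ) := by gcongr; exact le_abs_self C
      _ ≤ _ := by gcongr

theorem axA_eq (A : Set ℕ) (X y : ℕ) : AxA A X y = Ax A X y := rfl

theorem mA_eq_main (c : ℝ) (P : Finset ℕ) (α : ℝ) : mA c P 0 α = α ^ (-(1 / c)) * mainT P c := by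
  unfold mA mainT
  rw [Finset.mul_sum]
  refine Finset.sum_congr rfl fun m _ => ?_
  rw [add_zero]
  ring

/-- `x^{1/c}/log x` at `⌊α N^c⌋` -/
theorem scale_tendsto {c α : ℝ} (hc : 1 < c) (hα : 0 < α) :
    Tendsto (fun N : ℕ => ((⌊α * (N : ℝ) ^ c⌋₊ : ℝ) ^ (1 / c) / Real.log (⌊α * (N : ℝ) ^ c⌋₊ : ℝ)) /
      ((N : ℝ) / Real.log N)) atTop (𝓝 (α ^ (1 / c) / c)) := by
  have hc0 : 0 < c := by linarith
  have hT : Tendsto (fun N : ℕ => α * (N : ℝ) ^ c) atTop atTop :=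
    ((tendsto_rpow_atTop hc0).comp tendsto_natCast_atTop_atTop).const_mul_atTop hα
  have h1 : Tendsto (fun x : ℝ => ((⌊x⌋₊ : ℝ) / x) ^ (1 / c)) atTop (𝓝 1) := by
    have := (tendsto_nat_floor_div_atTop (R := ℝ)).rpow_const (p := 1 / c) (Or.inl one_ne_zero)
    rwa [Real.one_rpow] at this
  have h2 := (h1.comp hT).mul (log_floor_ratio.comp hT)
  have hL : Tendsto (fun N : ℕ => Real.log (N : ℝ)) atTop atTop :=
    Real.tendsto_log_atTop.comp tendsto_natCast_atTop_atTop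
  have h3 : Tendsto (fun N : ℕ => Real.log N / Real.log (α * (N : ℝ) ^ c)) atTop (𝓝 (1 / c)) := by
    have h4 : Tendsto (fun N : ℕ => Real.log α / Real.log N + c) atTop (𝓝 (0 + c)) :=
      (tendsto_const_nhds.div_atTop hL).add_const c
    rw [zero_add] at h4
    have h5 := h4.inv₀ hc0.ne'
    rw [← one_div] at h5
    refine h5.congr' ?_
    filter_upwards [eventually_ge_atTop 2] with N hN
    have hN' : (2 : ℝ) ≤ N := by exact_mod_cast hN
    have hl : 0 < Real.log (N : ℝ) := Real.log_pos (by linarith)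
    rw [Real.log_mul hα.ne' (by positivity), Real.log_rpow (by linarith)]
    rw [show Real.log α / Real.log (N : ℝ) + c = (Real.log α + c * Real.log N) / Real.log N by
      field_simp]
    rw [inv_div]
  have h6 := (h2.mul h3).const_mul (α ^ (1 / c))
  rw [one_mul, one_mul] at h6
  rw [show α ^ (1 / c) * (1 / c) = α ^ (1 / c) / c by ring] at h6
  refine h6.congr' ?_
  filter_upwards [eventually_ge_atTop 2, hT.eventually_ge_atTop 2] with N hN hx
  have hN' : (2 : ℝ) ≤ N := by exact_mod_cast hN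
  have hl : 0 < Real.log (N : ℝ) := Real.log_pos (by linarith)
  set x : ℝ := α * (N : ℝ) ^ c with hxd
  have hx0 : 0 < x := by linarith
  have hlx : 0 < Real.log x := Real.log_pos (by linarith)
  have hn : 2 ≤ ⌊x⌋₊ := Nat.le_floor (by exact_mod_cast hx)
  have hn' : (2 : ℝ) ≤ (⌊x⌋₊ : ℝ) := by exact_mod_cast hn
  have hlf : 0 < Real.log (⌊x⌋₊ : ℝ) := Real.log_pos (by linarith)
  simp only [Function.comp, ← hxd]
  have hx1 : x ^ (1 / c) = α ^ (1 / c) * N := by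
    rw [hxd, Real.mul_rpow hα.le (by positivity), ← Real.rpow_mul (by linarith), mul_one_div_cancel hc0.ne',
      Real.rpow_one]
  rw [Real.div_rpow (by linarith) hx0.le, hx1]
  have ha : 0 < α ^ (1 / c) := Real.rpow_pos_of_pos hα _
  field_simp

/-- sets whose counting function is `~ δ n/log n` -/
theorem law_prime {c κ α δ : ℝ} {A : Set ℕ} (hc : 1 < c) (hκ : 0 < κ) (hα : 0 < α) (hL : Law c κ A α)
    (hA : Tendsto (fun n : ℕ => ((Ax A 0 n).card : ℝ) * Real.log n / n) atTop (𝓝 δ)) :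
    Tendsto (fun N : ℕ => (nA A c α N : ℝ) / (N / Real.log N)) atTop (𝓝 (δ / c)) := by
  have hc0 : 0 < c := by linarith
  obtain ⟨C, hC⟩ := hL
  have hT : Tendsto (fun N : ℕ => ⌊α * (N : ℝ) ^ c⌋₊) atTop atTop :=
    tendsto_nat_floor_atTop.comp (((tendsto_rpow_atTop hc0).comp tendsto_natCast_atTop_atTop).const_mul_atTop hα)
  have h1 := (mainT_tendsto hc hA).comp hT
  have h2 := (h1.mul (scale_tendsto hc hα)).const_mul (α ^ (-(1 / c)))
  have ha : 0 < α ^ (1 / c) := Real.rpow_pos_of_pos hα _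
  have e0 : α ^ (-(1 / c)) * (δ * (α ^ (1 / c) / c)) = δ / c := by
    rw [Real.rpow_neg hα.le]
    field_simp
  rw [e0] at h2
  have h3 : Tendsto (fun N : ℕ => |C| * (Real.log (N : ℝ) / (N : ℝ) ^ κ)) atTop (𝓝 0) := by
    have := ((isLittleO_log_rpow_atTop hκ).tendsto_div_nhds_zero.comp
      tendsto_natCast_atTop_atTop).const_mul |C|
    rw [mul_zero] at this
    exact this
  have h4 : Tendsto (fun N : ℕ => ((nA A c α N : ℝ) - mA c (AxA A 0 ⌊α * (N : ℝ) ^ c⌋₊) 0 α) /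
      (N / Real.log N)) atTop (𝓝 0) := by
    refine squeeze_zero_norm' ?_ h3
    filter_upwards [eventually_ge_atTop 2] with N hN
    have hN' : (2 : ℝ) ≤ N := by exact_mod_cast hN
    have hN0 : (0 : ℝ) < N := by linarith
    have hl : 0 < Real.log (N : ℝ) := Real.log_pos (by linarith)
    rw [norm_div, Real.norm_eq_abs, Real.norm_eq_abs, abs_of_pos (show (0 : ℝ) < N / Real.log N by positivity)]
    have h5 := hC N (by omega)
    calc _ ≤ C * (N : ℝ) ^ (1 - κ) / (N / Real.log N) := by gcongr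
      _ ≤ |C| * (N : ℝ) ^ (1 - κ) / (N / Real.log N) := by gcongr; exact le_abs_self C
      _ = _ := by
        rw [Real.rpow_sub hN0, Real.rpow_one]
        field_simp
  have h6 := h4.add h2
  rw [zero_add] at h6
  refine h6.congr' ?_
  filter_upwards [eventually_ge_atTop 2, hT.eventually_ge_atTop 2] with N hN hx
  have hN' : (2 : ℝ) ≤ N := by exact_mod_cast hN
  have hl : 0 < Real.log (N : ℝ) := Real.log_pos (by linarith)
  have hx' : (2 : ℝ) ≤ (⌊α * (N : ℝ) ^ c⌋₊ : ℝ) := by exact_mod_cast hx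
  have hlx : 0 < Real.log (⌊α * (N : ℝ) ^ c⌋₊ : ℝ) := Real.log_pos (by linarith)
  have hp : 0 < (⌊α * (N : ℝ) ^ c⌋₊ : ℝ) ^ (1 / c) := Real.rpow_pos_of_pos (by linarith) _
  simp only [Function.comp]
  rw [mA_eq_main, axA_eq]
  field_simp
  ring

/-- sets with at least `n^(1-η)` elements up to `n` -/
theorem law_many {c κ α : ℝ} {A : Set ℕ} (hc : 1 < c) (hκ : 0 < κ) (hα : 0 < α) (hL : Law c κ A α)
    (hA : ∀ η : ℝ, 0 < η → ∀ᶠ n : ℕ in atTop, (n : ℝ) ^ (1 - η) ≤ ((Ax A 0 n).card : ℝ)) (η : ℝ)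
    (hη : 0 < η) : ∀ᶠ N : ℕ in atTop, (N : ℝ) ^ (1 - η) ≤ (nA A c α N : ℝ) := by
  have hc0 : 0 < c := by linarith
  obtain ⟨C, hC⟩ := hL
  set θ : ℝ := min (η / 2) (κ / 2) with hθ
  have hθ0 : 0 < θ := lt_min (by linarith) (by linarith)
  have hθ1 : θ ≤ η / 2 := min_le_left _ _
  have hθ2 : θ ≤ κ / 2 := min_le_right _ _
  have hT : Tendsto (fun N : ℕ => ⌊α * (N : ℝ) ^ c⌋₊) atTop atTop :=
    tendsto_nat_floor_atTop.comp (((tendsto_rpow_atTop hc0).comp tendsto_natCast_atTop_atTop).const_mul_atTop hα)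
  have h1 := hT.eventually (hA (θ / c) (by positivity))
  -- the main term is at least a constant times `N^(1-θ)`
  have hb : 0 < α ^ (-(1 / c)) * (1 / c) := by positivity
  have hs : Tendsto (fun N : ℕ => ((⌊α * (N : ℝ) ^ c⌋₊ : ℝ) / (α * (N : ℝ) ^ c)) ^ (1 / c - θ / c)) atTop
      (𝓝 1) := by
    have hT' : Tendsto (fun N : ℕ => α * (N : ℝ) ^ c) atTop atTop :=
      ((tendsto_rpow_atTop hc0).comp tendsto_natCast_atTop_atTop).const_mul_atTop hα
    have := ((tendsto_nat_floor_div_atTop (R := ℝ)).rpow_const (p := 1 / c - θ / c)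
      (Or.inl one_ne_zero)).comp hT'
    rw [Real.one_rpow] at this
    exact this
  have hs2 : ∀ᶠ N : ℕ in atTop, (1 / 2 : ℝ) <
      ((⌊α * (N : ℝ) ^ c⌋₊ : ℝ) / (α * (N : ℝ) ^ c)) ^ (1 / c - θ / c) :=
    hs.eventually (lt_mem_nhds (by norm_num))
  set b : ℝ := α ^ (-(1 / c)) * (1 / c) * (1 / 2 * α ^ (1 / c - θ / c)) with hbd
  have hb0 : 0 < b := by positivity
  have h2 : Tendsto (fun N : ℕ => (N : ℝ) ^ (η - θ)) atTop atTop :=
    (tendsto_rpow_atTop (by linarith)).comp tendsto_natCast_atTop_atTop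
  have h3 : Tendsto (fun N : ℕ => (N : ℝ) ^ (κ - θ)) atTop atTop :=
    (tendsto_rpow_atTop (by linarith)).comp tendsto_natCast_atTop_atTop
  filter_upwards [h1, hs2, h2.eventually_ge_atTop (2 / b), h3.eventually_ge_atTop (2 * |C| / b),
    eventually_ge_atTop 1, hT.eventually_ge_atTop 1] with N hN1 hN2 hN3 hN4 hN5 hN6
  have hN0 : (0 : ℝ) < N := by exact_mod_cast hN5
  set x : ℝ := α * (N : ℝ) ^ c with hx
  have hx0 : 0 < x := by positivity
  set n : ℕ := ⌊x⌋₊ with hn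
  have hn0 : (0 : ℝ) < n := by exact_mod_cast hN6
  have hmain : b * (N : ℝ) ^ (1 - θ) ≤ mA c (AxA A 0 n) 0 α := by
    rw [mA_eq_main, axA_eq]
    unfold mainT
    have h5 : ((Ax A 0 n).card : ℝ) * (1 / c * (n : ℝ) ^ (1 / c - 1)) ≤
        ∑ m ∈ Ax A 0 n, 1 / c * (m : ℝ) ^ (1 / c - 1) := by
      rw [← nsmul_eq_mul]
      refine Finset.card_nsmul_le_sum _ _ _ fun m hm => ?_
      have h6 := (mem_Ax.1 hm).1
      have h7 : (0 : ℝ) < m := by exact_mod_cast h6.1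
      have h8 : (m : ℝ) ≤ n := by exact_mod_cast h6.2
      have h9 : 1 / c - 1 ≤ 0 := by
        rw [sub_nonpos, div_le_one hc0]
        exact hc.le
      exact mul_le_mul_of_nonneg_left (Real.rpow_le_rpow_of_nonpos h7 h8 h9) (by positivity)
    have h10 : (n : ℝ) ^ (1 / c - θ / c) = (n : ℝ) ^ (1 - θ / c) * (n : ℝ) ^ (1 / c - 1) := by
      rw [← Real.rpow_add hn0]
      congr 1
      ring
    have h11 : x ^ (1 / c - θ / c) = α ^ (1 / c - θ / c) * (N : ℝ) ^ (1 - θ) := by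
      rw [hx, Real.mul_rpow hα.le (by positivity), ← Real.rpow_mul hN0.le]
      congr 2
      field_simp
    have h12 : 1 / 2 * (α ^ (1 / c - θ / c) * (N : ℝ) ^ (1 - θ)) ≤ (n : ℝ) ^ (1 / c - θ / c) := by
      rw [Real.div_rpow hn0.le hx0.le] at hN2
      rw [← h11]
      have h13 : 0 < x ^ (1 / c - θ / c) := Real.rpow_pos_of_pos hx0 _
      rw [lt_div_iff₀ h13] at hN2
      exact hN2.le
    have hal : 0 < α ^ (-(1 / c)) := Real.rpow_pos_of_pos hα _
    calc b * (N : ℝ) ^ (1 - θ) = α ^ (-(1 / c)) * (1 / c * (1 / 2 * (α ^ (1 / c - θ / c) *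
          (N : ℝ) ^ (1 - θ)))) := by rw [hbd]; ring
      _ ≤ α ^ (-(1 / c)) * (1 / c * (n : ℝ) ^ (1 / c - θ / c)) := by gcongr
      _ = α ^ (-(1 / c)) * ((n : ℝ) ^ (1 - θ / c) * (1 / c * (n : ℝ) ^ (1 / c - 1))) := by
        rw [h10]; ring
      _ ≤ α ^ (-(1 / c)) * (((Ax A 0 n).card : ℝ) * (1 / c * (n : ℝ) ^ (1 / c - 1))) := by gcongr
      _ ≤ _ := by gcongr
  have h5 := hC N hN5
  rw [abs_le] at h5
  have h6 : C * (N : ℝ) ^ (1 - κ) ≤ b / 2 * (N : ℝ) ^ (1 - θ) := by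
    have h7 : (N : ℝ) ^ (1 - θ) = (N : ℝ) ^ (κ - θ) * (N : ℝ) ^ (1 - κ) := by
      rw [← Real.rpow_add hN0]
      congr 1
      ring
    rw [h7, ← mul_assoc]
    refine mul_le_mul_of_nonneg_right ?_ (by positivity)
    rw [div_le_iff₀ hb0] at hN4
    have := le_abs_self C
    linarith
  have h8 : (N : ℝ) ^ (1 - η) ≤ b / 2 * (N : ℝ) ^ (1 - θ) := by
    have h7 : (N : ℝ) ^ (1 - θ) = (N : ℝ) ^ (η - θ) * (N : ℝ) ^ (1 - η) := by
      rw [← Real.rpow_add hN0]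
      congr 1
      ring
    rw [h7, ← mul_assoc]
    refine le_mul_of_one_le_left (by positivity) ?_
    rw [div_le_iff₀ hb0] at hN3
    linarith
  linarith [h5.1]

end Pool.Agent.Q178.RS
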