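import Pool.Agent.Q178.RS.Def
import Pool.Agent.Q178.RS.Abs2
import Pool.Agent.TH899.UG.Qd

/-!
# The family `a p - b q = κ (a - b)`: the property `Four`
-/

set_option autoImplicit false

namespace Q178.RS

open Finset Filter Pool.Agent.H732R3.BigQ Pool.Agent.TH899.UG Q165.Slope

/-- images under injective maps of at most linear growth -/
theorem big_inj {F G : Set ℕ} (hF : Big F) (C : ℕ) (φ : ℕ → ℕ) (hinj : Set.InjOn φ F)
    (hφ : ∀ n ∈ F, φ n ≤ C * (n + 1)) (hG : ∀ n ∈ F, φ n ∈ G) : Big G := by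
  intro η hη
  set κ : ℝ := 2 * C + 1 with hκ
  have hC : (0 : ℝ) ≤ C := Nat.cast_nonneg _
  have hκ1 : 1 ≤ κ := by linarith
  have hκ0 : 0 < κ := by linarith
  have ht : Tendsto (fun x : ℝ => κ * x) atTop atTop := tendsto_id.const_mul_atTop hκ0
  refine ht.frequently (((hF (η / 2) (by linarith)).and_eventually
    ((tendsto_rpow_atTop (show 0 < η / 2 by linarith)).eventually_ge_atTop (κ ^ (1 - η)) |>.and
      (eventually_ge_atTop (1 : ℝ)))).mono ?_)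
  rintro x ⟨h1, h2, h3⟩
  have hx0 : 0 < x := by linarith
  have h4 : (κ * x) ^ (1 - η) ≤ x ^ (1 - η / 2) := by
    rw [Real.mul_rpow hκ0.le hx0.le]
    calc κ ^ (1 - η) * x ^ (1 - η) ≤ x ^ (η / 2) * x ^ (1 - η) :=
          mul_le_mul_of_nonneg_right h2 (Real.rpow_nonneg hx0.le _)
      _ = x ^ (1 - η / 2) := by
          rw [← Real.rpow_add hx0]; congr 1; ring
  refine h4.trans (h1.trans ?_)
  have hinj' : Set.InjOn φ {n : ℕ | n ∈ F ∧ (n : ℝ) ≤ x} := fun n hn m hm h => hinj hn.1 hm.1 h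
  rw [← Set.InjOn.ncard_image hinj']
  have hsub : φ '' {n : ℕ | n ∈ F ∧ (n : ℝ) ≤ x} ⊆ {n : ℕ | n ∈ G ∧ (n : ℝ) ≤ κ * x} := by
    rintro _ ⟨n, ⟨hn, hnx⟩, rfl⟩
    refine ⟨hG n hn, ?_⟩
    have e1 : ((φ n : ℕ) : ℝ) ≤ C * (n + 1) := by exact_mod_cast hφ n hn
    rw [hκ]
    nlinarith
  exact_mod_cast Set.ncard_le_ncard hsub (fin_le G _)

/-- interchanging the two primes -/
theorem good_swap {a b : ℕ} {c : ℤ} (h : Good a b c) : Good b a (-c) := by
  obtain ⟨ha, hb, hc, hab, hac, hbc, hodd, hinf, hmany⟩ := h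
  have haz : (0 : ℤ) < a := by exact_mod_cast ha
  have hbz : (0 : ℤ) < b := by exact_mod_cast hb
  have hb' : Big {q : ℕ | q.Prime ∧ ∃ p : ℕ, p.Prime ∧ (b : ℤ) * p - a * q = -c} := by
    have hF : Big {q : ℕ | q.Prime ∧ ∃ p : ℕ, p.Prime ∧ (a : ℤ) * p - b * q = c} := hmany
    have hφ : ∀ q : ℕ, (q.Prime ∧ ∃ p : ℕ, p.Prime ∧ (a : ℤ) * p - b * q = c) →
        ∃ p : ℕ, p.Prime ∧ (a : ℤ) * p - b * q = c := fun q h => h.2
    choose! ψ hψ using hφ
    refine big_inj hF (b + c.natAbs) ψ ?_ ?_ ?_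
    · intro q hq r hr hqr
      have h1 := (hψ q hq).2
      have h2 := (hψ r hr).2
      rw [hqr] at h1
      have h3 : (b : ℤ) * q = b * r := by linarith
      exact_mod_cast mul_left_cancel₀ hbz.ne' h3
    · intro q hq
      have h1 := (hψ q hq).2
      have h2 : ((ψ q : ℕ) : ℤ) ≤ a * ψ q := le_mul_of_one_le_left (by positivity) (by linarith)
      have h3 : c ≤ |c| := le_abs_self c
      have h4 : |c| ≤ |c| * (q + 1) := le_mul_of_one_le_right (abs_nonneg _) (by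
        have : (0 : ℤ) ≤ q := by positivity
        linarith)
      have h5 : ((ψ q : ℕ) : ℤ) ≤ (b + |c|) * (q + 1) := by nlinarith
      have h6 : ((ψ q : ℕ) : ℤ) ≤ (((b + c.natAbs) * (q + 1) : ℕ) : ℤ) := by
        push_cast
        exact h5
      exact_mod_cast h6
    · intro q hq
      refine ⟨(hψ q hq).1, q, hq.1, ?_⟩
      have := (hψ q hq).2
      linarith
  refine ⟨hb, ha, neg_ne_zero.2 hc, hab.symm, hbc.neg_right, hac.neg_right, ?_, ?_, hb'⟩
  · rintro ⟨h1, h2, h3⟩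
    exact hodd ⟨h2, h1, by simpa using h3⟩
  · apply Set.Infinite.of_image Prod.snd
    refine hb'.infinite.mono ?_
    rintro q ⟨hq, p, hp, hpq⟩
    exact ⟨(p, q), ⟨hp, hq, hpq⟩, rfl⟩

theorem solved_inv {κ : ℤ} {r : ℚ} (h : Solved κ r) : Solved κ r⁻¹ := by
  obtain ⟨a, b, hr, hg⟩ := h
  refine ⟨b, a, by rw [hr, inv_div], ?_⟩
  have h1 := good_swap hg
  have h2 : -(κ * ((a : ℤ) - b)) = κ * ((b : ℤ) - a) := by ring
  rwa [h2] at h1

/-- the set of the solved ratios of the group `G`, with `1` -/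
def solSet (κ : ℤ) (G : Subgroup ℚˣ) : Set G := {u | u = 1 ∨ Solved κ ((u : ℚˣ) : ℚ)}

theorem rs_inv {κ : ℤ} {G : Subgroup ℚˣ} (s : G) (hs : s ∈ solSet κ G) : s⁻¹ ∈ solSet κ G := by
  rcases hs with h | h
  · left; rw [h, inv_one]
  · right
    have := solved_inv h
    simpa using this

/-- the triples `(a, b, κ (a - b))` satisfy the hypotheses of the question -/
theorem hyp_of_adm {κ : ℤ} (hκ : κ ≠ 0) (r : ℚ) (hr0 : 0 < r) (hr1 : r ≠ 1)
    (hn : IsCoprime r.num κ) (hd : IsCoprime (r.den : ℤ) κ) :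
    ∃ a b : ℕ, r = (b : ℚ) / a ∧ 1 ≤ a ∧ 1 ≤ b ∧ κ * ((a : ℤ) - b) ≠ 0 ∧ IsCoprime (a : ℤ) b ∧
      IsCoprime (a : ℤ) (κ * (a - b)) ∧ IsCoprime (b : ℤ) (κ * (a - b)) ∧
      ¬ (Odd a ∧ Odd b ∧ Odd (κ * ((a : ℤ) - b))) := by
  obtain ⟨a, ha⟩ : ∃ a : ℕ, a = r.den := ⟨_, rfl⟩
  obtain ⟨b, hb⟩ : ∃ b : ℕ, b = r.num.toNat := ⟨_, rfl⟩
  have hnum : 0 < r.num := Rat.num_pos.2 hr0
  have hbz : (b : ℤ) = r.num := by rw [hb, Int.toNat_of_nonneg hnum.le]
  have hrab : r = (b : ℚ) / a := by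
    have : ((b : ℤ) : ℚ) = (r.num : ℚ) := by rw [hbz]
    rw [Int.cast_natCast] at this
    rw [this, ha, Rat.num_div_den]
  have ha1 : 1 ≤ a := by rw [ha]; exact r.pos
  have hb1 : 1 ≤ b := by
    have : (0 : ℤ) < b := by rw [hbz]; exact hnum
    exact_mod_cast this
  have hab : IsCoprime (a : ℤ) b := by
    rw [hbz, ha]
    have := r.reduced
    rw [Int.isCoprime_iff_gcd_eq_one, Int.gcd_comm]
    simpa [Int.gcd] using this
  have haκ : IsCoprime (a : ℤ) κ := by rw [ha]; exact hd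
  have hbκ : IsCoprime (b : ℤ) κ := by rw [hbz]; exact hn
  have hne : (a : ℤ) - b ≠ 0 := by
    intro h0
    apply hr1
    have h1 : (a : ℤ) = b := by linarith
    have h2 : a = b := by exact_mod_cast h1
    rw [hrab, h2, div_self]
    exact_mod_cast (by omega : b ≠ 0)
  have hac : IsCoprime (a : ℤ) (κ * (a - b)) := by
    refine haκ.mul_right ?_
    have h1 : IsCoprime (a : ℤ) (-(b : ℤ)) := hab.neg_right
    have h2 := h1.add_mul_left_right 1
    have h3 : -(b : ℤ) + a * 1 = a - b := by ring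
    rwa [h3] at h2
  have hbc : IsCoprime (b : ℤ) (κ * (a - b)) := by
    refine hbκ.mul_right ?_
    have h2 := hab.symm.add_mul_left_right (-1)
    have h3 : (a : ℤ) + b * (-1) = a - b := by ring
    rwa [h3] at h2
  refine ⟨a, b, hrab, ha1, hb1, mul_ne_zero hκ hne, hab, hac, hbc, ?_⟩
  rintro ⟨h1, h2, h3⟩
  have h4 : Even ((a : ℤ) - b) := by
    apply Odd.sub_odd
    · exact_mod_cast h1
    · exact_mod_cast h2
  exact (Int.not_even_iff_odd.2 h3) (h4.mul_left κ)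

/-- one pair of forms -/
theorem solved_of_big {κ : ℤ} (hκ : κ ≠ 0) (r : ℚ) (hr0 : 0 < r) (hr1 : r ≠ 1)
    (hn : IsCoprime r.num κ) (hd : IsCoprime (r.den : ℤ) κ) (α β : ℤ) (hβ : 0 < β)
    (hr : r = (α : ℚ) / β) (F : Set ℕ) (hF : Big F)
    (h : ∀ n ∈ F, (0 < α * (n : ℤ) + κ ∧ Prime (α * (n : ℤ) + κ)) ∧
      (0 < β * (n : ℤ) + κ ∧ Prime (β * (n : ℤ) + κ))) : Solved κ r := by
  obtain ⟨a, b, hrab, ha1, hb1, hne, hab, hac, hbc, hodd⟩ := hyp_of_adm hκ r hr0 hr1 hn hd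
  have hcross : (a : ℤ) * α = b * β := by
    have h1 : (b : ℚ) / a = (α : ℚ) / β := by rw [← hrab, hr]
    have h2 : (a : ℚ) ≠ 0 := by exact_mod_cast (by omega : a ≠ 0)
    have h3 : (β : ℚ) ≠ 0 := by exact_mod_cast hβ.ne'
    rw [div_eq_div_iff h2 h3] at h1
    have h4 : (b : ℤ) * β = α * a := by exact_mod_cast h1
    linarith
  have hmany : Big {q : ℕ | q.Prime ∧ ∃ p : ℕ, p.Prime ∧ (a : ℤ) * p - b * q = κ * (a - b)} := by
    refine Big.affine hF β.toNat κ (by omega) (fun n => (β * (n : ℤ) + κ).toNat) ?_ ?_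
    · intro n hn
      rw [Int.toNat_of_nonneg (h n hn).2.1.le, Int.toNat_of_nonneg hβ.le]
    · intro n hn
      obtain ⟨⟨h3, h4⟩, h1, h2⟩ := h n hn
      refine ⟨?_, (α * (n : ℤ) + κ).toNat, ?_, ?_⟩
      · rw [Nat.prime_iff_prime_int, Int.toNat_of_nonneg h1.le]
        exact h2
      · rw [Nat.prime_iff_prime_int, Int.toNat_of_nonneg h3.le]
        exact h4
      · rw [Int.toNat_of_nonneg h1.le, Int.toNat_of_nonneg h3.le]
        linear_combination (n : ℤ) * hcross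
  refine ⟨a, b, hrab, ha1, hb1, hne, hab, hac, hbc, hodd, ?_, hmany⟩
  apply Set.Infinite.of_image Prod.snd
  refine hmany.infinite.mono ?_
  rintro q ⟨hq, p, hp, hpq⟩
  exact ⟨(p, q), ⟨hp, hq, hpq⟩, rfl⟩

theorem four_rs : ∃ K : ℕ, ∀ {κ : ℤ}, κ ≠ 0 → ∀ G : Subgroup ℚˣ, G ≤ adm κ → Four K (solSet κ G) := by
  classical
  obtain ⟨c₀, hc₀, hc₁, hQ⟩ := quarterD
  obtain ⟨K, hK, hQT⟩ := hQ 4
  refine ⟨K, fun {κ} hκ G hG A hA => ?_⟩
  by_cases hov : ∃ i j : Fin 4, i ≠ j ∧ ∃ s t, A i s = A j t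
  · obtain ⟨i, j, hij, s, t, h⟩ := hov
    refine ⟨i, j, hij, s, t, Or.inl ?_⟩
    rw [h, div_self']
  push Not at hov
  obtain ⟨v, hv⟩ : ∃ v : Fin 4 → Fin K → ℚ, v = fun i s => (((A i s : G) : ℚˣ) : ℚ) := ⟨_, rfl⟩
  have hv0 : ∀ i s, 0 < v i s := fun i s => by rw [hv]; exact (hG (A i s).2).1
  have hvn : ∀ i s, IsCoprime (v i s).num κ := fun i s => by rw [hv]; exact (hG (A i s).2).2.1
  have hvd : ∀ i s, IsCoprime ((v i s).den : ℤ) κ := fun i s => by rw [hv]; exact (hG (A i s).2).2.2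
  obtain ⟨N, hN⟩ : ∃ N : ℕ, N = ∏ x : Fin 4 × Fin K, (v x.1 x.2).den := ⟨_, rfl⟩
  have hNκ : IsCoprime (N : ℤ) κ := by
    rw [hN]
    push_cast
    exact IsCoprime.prod_left fun x _ => hvd _ _
  have hN0 : 0 < N := by rw [hN]; exact Finset.prod_pos fun x _ => Rat.pos _
  have hdN : ∀ i s, (v i s).den ∣ N := fun i s => by
    rw [hN]; exact Finset.dvd_prod_of_mem (fun x : Fin 4 × Fin K => (v x.1 x.2).den) (Finset.mem_univ (i, s))
  choose M hM using hdN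
  obtain ⟨a, ha⟩ : ∃ a : Fin 4 → Fin K → ℤ, a = fun i s => (v i s).num * M i s := ⟨_, rfl⟩
  have haq : ∀ i s, (a i s : ℚ) = v i s * N := by
    intro i s
    rw [ha, hM i s]
    push_cast
    have h1 : (v i s) * (v i s).den = (v i s).num := Rat.mul_den_eq_num _
    rw [← mul_assoc, h1]
  have hNq : (0 : ℚ) < N := by exact_mod_cast hN0
  have ha0 : ∀ i s, 0 < a i s := by
    intro i s
    have h1 : (0 : ℚ) < a i s := by rw [haq]; exact mul_pos (hv0 i s) hNq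
    exact_mod_cast h1
  have hMκ : ∀ i s, IsCoprime (M i s : ℤ) κ := by
    intro i s
    refine IsCoprime.of_isCoprime_of_dvd_left hNκ ?_
    rw [hM i s]
    push_cast
    exact Dvd.intro_left _ rfl
  have haκ : ∀ i s, IsCoprime (a i s) κ := by
    intro i s
    rw [ha]
    exact (hvn i s).mul_left (hMκ i s)
  have hinj : Function.Injective (fun x : Fin 4 × Fin K => (a x.1 x.2, κ)) := by
    rintro ⟨i, s⟩ ⟨j, t⟩ h
    have h1 : a i s = a j t := (Prod.mk.inj h).1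
    have h2 : v i s * N = v j t * N := by rw [← haq, ← haq, h1]
    have h3 : v i s = v j t := mul_right_cancel₀ hNq.ne' h2
    have h4 : A i s = A j t := by
      rw [hv] at h3
      exact Subtype.ext (Units.ext h3)
    by_cases hij : i = j
    · subst hij
      rw [hA i h4]
    · exact absurd h4 (hov i j hij s t)
  obtain ⟨S, c, hS, hBig⟩ := hQT a (fun _ _ => κ) ha0 hinj (by
    intro p hp
    have hpp := Nat.prime_iff_prime_int.1 hp
    by_cases hpκ : (p : ℤ) ∣ κ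
    · refine ⟨1, fun g s hdv => ?_⟩
      rw [mul_one] at hdv
      have h1 : (p : ℤ) ∣ a g s := (dvd_add_left hpκ).1 hdv
      exact hpp.not_isUnit ((haκ g s).isUnit_of_dvd' h1 hpκ)
    · refine ⟨0, fun g s hdv => ?_⟩
      rw [mul_zero, zero_add] at hdv
      exact hpκ hdv)
  have h2 : 1 < S.card := by
    by_contra hle
    have h3 : (S.card : ℝ) ≤ 1 := by exact_mod_cast not_lt.1 hle
    have h4 : (4 - c₀) * (S.card : ℝ) ≤ (4 - c₀) * 1 :=
      mul_le_mul_of_nonneg_left h3 (by linarith)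
    push_cast at hS
    linarith
  obtain ⟨i, hi, j, hj, hij⟩ := Finset.one_lt_card.1 h2
  refine ⟨i, j, hij, c i, c j, Or.inr ?_⟩
  obtain ⟨u, hu⟩ : ∃ u : G, u = A i (c i) / A j (c j) := ⟨_, rfl⟩
  rw [← hu]
  have huq : ((u : ℚˣ) : ℚ) = v i (c i) / v j (c j) := by
    rw [hu, hv]
    push_cast
    simp [div_eq_mul_inv]
  refine solved_of_big hκ _ (hG u.2).1 ?_ (hG u.2).2.1 (hG u.2).2.2 (a i (c i)) (a j (c j)) (ha0 _ _) ?_ _
    hBig (fun n hn => ⟨hn i hi, hn j hj⟩)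
  · intro h1
    rw [huq, div_eq_one_iff_eq (hv0 _ _).ne'] at h1
    apply hov i j hij (c i) (c j)
    rw [hv] at h1
    exact Subtype.ext (Units.ext h1)
  · rw [huq, haq, haq, mul_div_mul_right _ _ hNq.ne']

theorem adm_infinite {κ : ℤ} (hκ : κ ≠ 0) : Infinite (adm κ) := by
  have hpos : ∀ n : ℕ, (0 : ℚ) < ((κ.natAbs * n + 1 : ℕ) : ℚ) := fun n => by
    exact_mod_cast Nat.succ_pos _
  refine Infinite.of_injective (fun n : ℕ => (⟨Units.mk0 ((κ.natAbs * n + 1 : ℕ) : ℚ) (hpos n).ne', ?_⟩ : adm κ)) ?_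
  · refine ⟨by rw [Units.val_mk0]; exact hpos n, ?_, ?_⟩
    · rw [Units.val_mk0, Rat.num_natCast]
      obtain ⟨t, ht⟩ : κ ∣ ((κ.natAbs * n : ℕ) : ℤ) := by
        push_cast
        exact Dvd.dvd.mul_right ((dvd_abs _ _).2 dvd_rfl) _
      refine ⟨1, -t, ?_⟩
      push_cast at ht ⊢
      linear_combination ht
    · rw [Units.val_mk0, Rat.den_natCast]
      exact isCoprime_one_left
  · intro m n h
    have h1 := congrArg (fun u : adm κ => ((u : ℚˣ) : ℚ)) h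
    simp only [Units.val_mk0] at h1
    have h2 : κ.natAbs * m + 1 = κ.natAbs * n + 1 := by exact_mod_cast h1
    exact Nat.eq_of_mul_eq_mul_left (Int.natAbs_pos.2 hκ) (Nat.succ_injective h2)

end Q178.RS
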