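import Pool.Agent.Q178.RS.Law
import Pool.Agent.Y854.PS.FamA

/-! The universal law for `⌊α n^c⌋`, uniformly for `N^κ` sets. -/

set_option autoImplicit false

open Finset MeasureTheory Filter Asymptotics Topology

namespace Pool.Agent.Q178.RS

open Pool.Agent.H706R2.PS
open Pool.Agent.H706R2.PS.A13aux
open Pool.Agent.Y854.PS (a12fam blockA w14b)

theorem triv {c α : ℝ} (hc : 1 < c) (hα : 0 < α) : ∃ C0 : ℝ, 0 ≤ C0 ∧ ∀ (A : Set ℕ) (Y : ℕ), 1 ≤ Y →
    |∑ m ∈ Ioc 0 Y, (ft A c α m - mt A c α m)| ≤ C0 * (Y : ℝ) ^ (1 / c) := by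
  classical
  have hc0 : 0 < c := by linarith
  have h1c : 0 < 1 / c := by positivity
  have hα1 : 0 ≤ α ^ (-(1 / c)) := by positivity
  obtain ⟨C, hC0, hC⟩ := det (fun m => mt Set.univ c α m) (1 / c) (α ^ (-(1 / c))) h1c hα1 0
    (by
      intro i _ y hy hy2
      have hX1 : 1 ≤ 2 ^ i := Nat.one_le_two_pow
      have hX0 : (0 : ℝ) < (2 : ℝ) ^ i := by positivity
      rw [abs_of_nonneg (Finset.sum_nonneg fun m _ => mt_nonneg _ hc.le hα m)]
      have h2 : ∑ m ∈ Ioc (2 ^ i) y, mt Set.univ c α m ≤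
          (Ioc (2 ^ i) y).card • (α ^ (-(1 / c)) * ((2 : ℝ) ^ i) ^ (1 / c - 1)) := by
        refine Finset.sum_le_card_nsmul _ _ _ fun m hm => ?_
        rw [mem_Ioc] at hm
        have := mt_le Set.univ hc.le hα hX1 hm.1.le
        push_cast at this
        exact this
      refine h2.trans ?_
      rw [Nat.card_Ioc, nsmul_eq_mul]
      have h3 : ((y - 2 ^ i : ℕ) : ℝ) ≤ (2 : ℝ) ^ i := by
        have : y - 2 ^ i ≤ 2 ^ i := by
          rw [pow_succ] at hy2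
          omega
        exact_mod_cast this
      have h4 : (2 : ℝ) ^ i * ((2 : ℝ) ^ i) ^ (1 / c - 1) = ((2 : ℝ) ^ i) ^ (1 / c) := by
        rw [Real.rpow_sub hX0, Real.rpow_one]
        field_simp
      calc ((y - 2 ^ i : ℕ) : ℝ) * (α ^ (-(1 / c)) * ((2 : ℝ) ^ i) ^ (1 / c - 1))
          ≤ (2 : ℝ) ^ i * (α ^ (-(1 / c)) * ((2 : ℝ) ^ i) ^ (1 / c - 1)) := by gcongr
        _ = α ^ (-(1 / c)) * ((2 : ℝ) ^ i * ((2 : ℝ) ^ i) ^ (1 / c - 1)) := by ring
        _ = _ := by rw [h4])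
  refine ⟨(2 / α) ^ (1 / c) + 2 + 1 / α + C, by positivity, fun A Y hY => ?_⟩
  have hY1 : (1 : ℝ) ≤ Y := by exact_mod_cast hY
  have hYp : (1 : ℝ) ≤ (Y : ℝ) ^ (1 / c) := Real.one_le_rpow hY1 h1c.le
  have hft : ∑ m ∈ Ioc 0 Y, ft A c α m ≤ ((2 / α) ^ (1 / c) + 2 + 1 / α) * (Y : ℝ) ^ (1 / c) := by
    have h1 : ∑ m ∈ Ioc 0 Y, ft A c α m ≤ ∑ m ∈ Ioc 0 Y, ft Set.univ c α m := by
      refine Finset.sum_le_sum fun m _ => ?_
      unfold ft
      rw [if_pos (Set.mem_univ m)]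
      split_ifs
      · exact le_rfl
      · positivity
    set N : ℕ := ⌈(((Y : ℝ) + 1) / α) ^ (1 / c)⌉₊ with hN
    have h2 : (((Y : ℝ) + 1) / α) ^ (1 / c) ≤ N := Nat.le_ceil _
    have h3 : (Y : ℝ) + 1 ≤ α * (N : ℝ) ^ c := by
      have h4 : ((((Y : ℝ) + 1) / α) ^ (1 / c)) ^ c ≤ (N : ℝ) ^ c :=
        Real.rpow_le_rpow (by positivity) h2 hc0.le
      rw [← Real.rpow_mul (by positivity), one_div_mul_cancel hc0.ne', Real.rpow_one,
        div_le_iff₀ hα] at h4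
      linarith
    have h5 : Y ≤ ⌊α * (N : ℝ) ^ c⌋₊ := Nat.le_floor (by linarith)
    have h6 := sum_mono (ft_nonneg Set.univ c α) 0 _ _ h5
    have h7 := (nA_close Set.univ hc.le hα N).2
    have h8 : (nA Set.univ c α N : ℝ) ≤ N := by
      have : nA Set.univ c α N ≤ N := by
        unfold nA
        have h9 : ({n : ℕ | 1 ≤ n ∧ n ≤ N ∧ 1 ≤ ⌊α * (n : ℝ) ^ c⌋₊ ∧ ⌊α * (n : ℝ) ^ c⌋₊ ∈ Set.univ} : Set ℕ) ⊆
            ((Icc 1 N : Finset ℕ) : Set ℕ) := by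
          intro n hn
          rw [Finset.mem_coe, mem_Icc]
          exact ⟨hn.1, hn.2.1⟩
        have h10 := Set.ncard_le_ncard h9 (Finset.finite_toSet _)
        rw [Set.ncard_coe_finset, Nat.card_Icc] at h10
        omega
      exact_mod_cast this
    have h9 : (N : ℝ) ≤ (((Y : ℝ) + 1) / α) ^ (1 / c) + 1 := (Nat.ceil_lt_add_one (by positivity)).le
    have h10 : (((Y : ℝ) + 1) / α) ^ (1 / c) ≤ (2 / α) ^ (1 / c) * (Y : ℝ) ^ (1 / c) := by
      rw [← Real.mul_rpow (by positivity) (by positivity)]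
      apply Real.rpow_le_rpow (by positivity) _ h1c.le
      rw [div_mul_eq_mul_div]
      gcongr
      linarith
    have h11 : (1 + (1 / α + 1)) ≤ (2 + 1 / α) * (Y : ℝ) ^ (1 / c) := by
      have : (0 : ℝ) ≤ 2 + 1 / α := by positivity
      nlinarith
    nlinarith
  have hmt : ∑ m ∈ Ioc 0 Y, mt A c α m ≤ C * (Y : ℝ) ^ (1 / c) := by
    have h1 : ∑ m ∈ Ioc 0 Y, mt A c α m ≤ ∑ m ∈ Ioc 0 Y, mt Set.univ c α m := by
      refine Finset.sum_le_sum fun m _ => ?_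
      unfold Pool.Agent.H706R2.PS.A13aux.mt
      rw [if_pos (Set.mem_univ m)]
      split_ifs
      · exact le_rfl
      · positivity
    exact h1.trans ((le_abs_self _).trans (hC Y hY))
  have hft0 : 0 ≤ ∑ m ∈ Ioc 0 Y, ft A c α m := Finset.sum_nonneg fun m _ => ft_nonneg A c α m
  have hmt0 : 0 ≤ ∑ m ∈ Ioc 0 Y, mt A c α m := Finset.sum_nonneg fun m _ => mt_nonneg A hc.le hα m
  rw [Finset.sum_sub_distrib, abs_le]
  have e : ((2 / α) ^ (1 / c) + 2 + 1 / α + C) * (Y : ℝ) ^ (1 / c) =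
    ((2 / α) ^ (1 / c) + 2 + 1 / α) * (Y : ℝ) ^ (1 / c) + C * (Y : ℝ) ^ (1 / c) := by ring
  rw [e]
  constructor <;> linarith

/-- **The universal law, uniform for `N^κ` sets.** -/
theorem law_power (c : ℝ) (hc : 1 < c) : ∃ κ : ℝ, 0 < κ ∧ κ < 1 ∧ ∀ (A : ℕ → Set ℕ),
    ∃ E : Set ℝ, dimH E ≤ ENNReal.ofReal (1 - κ) ∧ ∀ α : ℝ, 0 < α → α ∉ E →
      ∃ C : ℝ, 0 ≤ C ∧ ∀ N : ℕ, 1 ≤ N → ∀ k : ℕ, (k : ℝ) ≤ (N : ℝ) ^ κ →
      |(nA (A k) c α N : ℝ) - mA c (AxA (A k) 0 ⌊α * (N : ℝ) ^ c⌋₊) 0 α| ≤ C * (N : ℝ) ^ (1 - κ) := by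
  classical
  have hc0 : 0 < c := by linarith
  have h1c : 0 < 1 / c := by positivity
  obtain ⟨κ0, hκ0, hκ1, hκ⟩ := a12fam c hc.le
  have hκ8 : κ0 ≤ 1 / 8 := by
    refine hκ1.trans ?_
    rw [div_le_div_iff₀ (by positivity) (by norm_num)]
    linarith
  have hκle : κ0 ≤ 1 := by linarith
  refine ⟨κ0 / 256, by positivity, by linarith, fun A => ?_⟩
  set M : ℕ → ℕ := fun i => ⌊((2 : ℝ) ^ i) ^ (κ0 / 128)⌋₊ with hM
  have hMle : ∀ i, (M i : ℝ) ≤ ((2 : ℝ) ^ i) ^ (κ0 / 128) := fun i => Nat.floor_le (by positivity)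
  have hpos : ∀ j : ℤ, (0 : ℝ) < (2 : ℝ) ^ j := fun j => zpow_pos (by norm_num) j
  have hdbl : ∀ j : ℤ, (2 : ℝ) ^ (j + 1) = 2 * (2 : ℝ) ^ j := fun j => by
    rw [zpow_add_one₀ (by norm_num)]
    ring
  have hle : ∀ j : ℤ, (2 : ℝ) ^ j ≤ (2 : ℝ) ^ (j + 1) := fun j => by
    rw [hdbl]
    linarith [hpos j]
  refine ⟨⋃ j : ℤ, {α : ℝ | ∀ i1 : ℕ, ∃ i : ℕ, i1 ≤ i ∧
    α ∈ ⋃ k ∈ Finset.range (M i), BadA (A k) c κ0 ((2 : ℝ) ^ j) ((2 : ℝ) ^ (j + 1)) i}, ?_, ?_⟩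
  · rw [dimH_iUnion]
    refine iSup_le fun j => ?_
    obtain ⟨i0, hi0⟩ := hκ _ _ (hpos j) (hle j) (hdbl j).le M (Eventually.of_forall hMle)
    refine (w14b κ0 _ hκ0 hκle ⟨i0, fun i hi => hi0 (fun _ k => A k) i hi⟩).trans ?_
    exact ENNReal.ofReal_le_ofReal (by linarith)
  · intro α hα hE
    obtain ⟨j, hj1, hj2⟩ := exists_mem_Ico_zpow hα (show (1 : ℝ) < 2 by norm_num)
    have hmem : α ∈ Set.Icc ((2 : ℝ) ^ j) ((2 : ℝ) ^ (j + 1)) := ⟨hj1, hj2.le⟩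
    have hnot : ∃ i1 : ℕ, ∀ i : ℕ, i1 ≤ i → ∀ k < M i,
        α ∉ BadA (A k) c κ0 ((2 : ℝ) ^ j) ((2 : ℝ) ^ (j + 1)) i := by
      by_contra hcon
      apply hE
      rw [Set.mem_iUnion]
      refine ⟨j, fun i1 => ?_⟩
      by_contra h
      apply hcon
      refine ⟨i1, fun i hi k hk hb => h ⟨i, hi, ?_⟩⟩
      simp only [Set.mem_iUnion, Finset.mem_range, exists_prop]
      exact ⟨k, hk, hb⟩
    obtain ⟨i1, hi1⟩ := hnot
    have hblock := fun (i : ℕ) (hi : i1 ≤ i) (k : ℕ) (hk : k < M i) =>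
      blockA c κ0 _ _ hc hκ0 hκ1 (hpos j) (A k) α hmem i (hi1 i hi k hk)
    obtain ⟨C0, hC00, hC0⟩ := triv hc hα
    set θ : ℝ := 1 / c - κ0 / 4 with hθd
    have hθ : 0 < θ := by
      have h1 : κ0 ≤ 1 / c / 8 := by
        refine hκ1.trans (le_of_eq ?_)
        field_simp
      rw [hθd]
      linarith
    set K : ℝ := 1 + 2 * α ^ (-(1 / c)) with hK
    have hK0 : 0 ≤ K := by positivity
    have h2θ : 1 < (2 : ℝ) ^ θ := Real.one_lt_rpow (by norm_num) hθ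
    set C1 : ℝ := K / ((2 : ℝ) ^ θ - 1) + K with hC1
    have hC10 : 0 ≤ C1 := by
      have : 0 ≤ K / ((2 : ℝ) ^ θ - 1) := div_nonneg hK0 (by linarith)
      linarith
    set R : ℝ := 2 ^ (i1 + 1) * 3 ^ (128 / (κ0 * c)) with hR
    have hR0 : 0 ≤ R := by positivity
    refine ⟨(1 / α + 1) + C0 * R + C1 * α ^ θ, by positivity, fun N hN k hk => ?_⟩
    have hN1 : (1 : ℝ) ≤ N := by exact_mod_cast hN
    have hN0 : (0 : ℝ) < N := by linarith
    have hNκ : (1 : ℝ) ≤ (N : ℝ) ^ (κ0 / 256) := Real.one_le_rpow hN1 (by positivity)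
    have hN1κ : (1 : ℝ) ≤ (N : ℝ) ^ (1 - κ0 / 256) := Real.one_le_rpow hN1 (by linarith)
    -- the threshold
    set l : ℝ := Real.logb 2 ((k : ℝ) + 2) * (128 / κ0) with hl
    have hl0 : 0 ≤ l := by
      apply mul_nonneg _ (by positivity)
      apply Real.logb_nonneg (by norm_num)
      have : (0 : ℝ) ≤ k := Nat.cast_nonneg k
      linarith
    have hk2 : (0 : ℝ) < (k : ℝ) + 2 := by positivity
    set i2 : ℕ := max i1 ⌈l⌉₊ with hi2
    have hi12 : i1 ≤ i2 := le_max_left _ _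
    have hMk : ∀ i, i2 ≤ i → k < M i := by
      intro i hi
      have h1 : l ≤ i := (Nat.le_ceil l).trans (by exact_mod_cast (le_max_right _ _).trans hi)
      have h2 : (k : ℝ) + 2 ≤ ((2 : ℝ) ^ i) ^ (κ0 / 128) := by
        rw [← Real.rpow_natCast, ← Real.rpow_mul (by norm_num)]
        calc (k : ℝ) + 2 = (2 : ℝ) ^ (Real.logb 2 ((k : ℝ) + 2)) :=
              (Real.rpow_logb (by norm_num) (by norm_num) hk2).symm
          _ = (2 : ℝ) ^ (l * (κ0 / 128)) := by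
              congr 1
              rw [hl]
              field_simp
          _ ≤ _ := by
              apply Real.rpow_le_rpow_of_exponent_le (by norm_num)
              gcongr
      have h3 : k + 2 ≤ M i := Nat.le_floor (by push_cast; exact h2)
      omega
    have hi2le : ((2 : ℝ) ^ i2) ^ (1 / c) ≤ R * (N : ℝ) ^ (1 - κ0 / 256) := by
      have h1 : (i2 : ℝ) ≤ (i1 + 1 : ℕ) + l := by
        have h2 : i2 ≤ i1 + ⌈l⌉₊ := max_le (Nat.le_add_right _ _) (Nat.le_add_left _ _)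
        have h3 : (⌈l⌉₊ : ℝ) ≤ l + 1 := (Nat.ceil_lt_add_one hl0).le
        have h4 : (i2 : ℝ) ≤ i1 + ⌈l⌉₊ := by exact_mod_cast h2
        push_cast
        linarith
      have h2 : (2 : ℝ) ^ i2 ≤ 2 ^ (i1 + 1) * ((k : ℝ) + 2) ^ (128 / κ0) := by
        calc (2 : ℝ) ^ i2 = (2 : ℝ) ^ (i2 : ℝ) := (Real.rpow_natCast _ _).symm
          _ ≤ (2 : ℝ) ^ (((i1 + 1 : ℕ) : ℝ) + l) := Real.rpow_le_rpow_of_exponent_le (by norm_num) h1
          _ = 2 ^ (i1 + 1) * ((2 : ℝ) ^ (Real.logb 2 ((k : ℝ) + 2))) ^ (128 / κ0) := by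
              rw [Real.rpow_add (by norm_num), Real.rpow_natCast, ← Real.rpow_mul (by norm_num)]
          _ = _ := by rw [Real.rpow_logb (by norm_num) (by norm_num) hk2]
      have h3 : (k : ℝ) + 2 ≤ 3 * (N : ℝ) ^ (κ0 / 256) := by linarith
      have h4 : ((2 : ℝ) ^ i2) ≤ 2 ^ (i1 + 1) * (3 * (N : ℝ) ^ (κ0 / 256)) ^ (128 / κ0) := by
        refine h2.trans ?_
        gcongr
      calc ((2 : ℝ) ^ i2) ^ (1 / c) ≤ (2 ^ (i1 + 1) * (3 * (N : ℝ) ^ (κ0 / 256)) ^ (128 / κ0)) ^ (1 / c) :=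
            Real.rpow_le_rpow (by positivity) h4 h1c.le
        _ = (2 ^ (i1 + 1)) ^ (1 / c) * (3 ^ (128 / (κ0 * c)) * (N : ℝ) ^ (1 / (2 * c))) := by
            rw [Real.mul_rpow (by positivity) (by positivity), ← Real.rpow_mul (by positivity),
              Real.mul_rpow (by positivity) (by positivity), ← Real.rpow_mul hN0.le]
            congr 2
            · congr 1
              field_simp
            · congr 1
              field_simp
              norm_num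
        _ ≤ 2 ^ (i1 + 1) * (3 ^ (128 / (κ0 * c)) * (N : ℝ) ^ (1 - κ0 / 256)) := by
            have h5 : ((2 : ℝ) ^ (i1 + 1)) ^ (1 / c) ≤ 2 ^ (i1 + 1) := by
              calc ((2 : ℝ) ^ (i1 + 1)) ^ (1 / c) ≤ ((2 : ℝ) ^ (i1 + 1)) ^ (1 : ℝ) := by
                    apply Real.rpow_le_rpow_of_exponent_le
                    · exact one_le_pow₀ (by norm_num)
                    · rw [div_le_one hc0]
                      exact hc.le
                _ = _ := Real.rpow_one _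
            have h6 : (N : ℝ) ^ (1 / (2 * c)) ≤ (N : ℝ) ^ (1 - κ0 / 256) := by
              apply Real.rpow_le_rpow_of_exponent_le hN1
              have h7 : 1 / (2 * c) ≤ 1 / 2 := by
                apply one_div_le_one_div_of_le (by norm_num)
                linarith
              linarith
            gcongr
        _ = R * (N : ℝ) ^ (1 - κ0 / 256) := by rw [hR]; ring
    -- the sum
    set Y : ℕ := ⌊α * (N : ℝ) ^ c⌋₊ with hY
    have hYle : (Y : ℝ) ≤ α * (N : ℝ) ^ c := Nat.floor_le (by positivity)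
    have hsum : |∑ m ∈ Ioc 0 Y, (ft (A k) c α m - mt (A k) c α m)| ≤
        C0 * ((2 : ℝ) ^ i2) ^ (1 / c) + C1 * (Y : ℝ) ^ θ := by
      have hp1 : 0 ≤ C1 * (Y : ℝ) ^ θ := by positivity
      have hp2 : 0 ≤ C0 * ((2 : ℝ) ^ i2) ^ (1 / c) := by positivity
      rcases Nat.eq_zero_or_pos Y with h0 | hY1
      · rw [h0] at hp1 ⊢
        rw [Finset.Ioc_self, Finset.sum_empty, abs_zero]
        exact add_nonneg hp2 hp1
      rcases lt_or_ge Y (2 ^ i2) with hlt | hge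
      · refine (hC0 (A k) Y hY1).trans ?_
        have h1 : (Y : ℝ) ≤ (2 : ℝ) ^ i2 := by exact_mod_cast hlt.le
        have h2 : (Y : ℝ) ^ (1 / c) ≤ ((2 : ℝ) ^ i2) ^ (1 / c) :=
          Real.rpow_le_rpow (by positivity) h1 h1c.le
        have h3 := mul_le_mul_of_nonneg_left h2 hC00
        linarith
      · set i : ℕ := Nat.log 2 Y with hi
        have hii : i2 ≤ i := by
          rw [hi]
          exact Nat.le_log_of_pow_le (by norm_num) hge
        have h1 : 2 ^ i ≤ Y := Nat.pow_log_le_self 2 (by omega)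
        have h2 : Y ≤ 2 ^ (i + 1) := (Nat.lt_pow_succ_log_self (by norm_num) Y).le
        have h3 := ind (fun m => ft (A k) c α m - mt (A k) c α m) θ K hθ hK0 i2
          (fun i' hi' => hblock i' (hi12.trans hi') k (hMk i' hi')) i hii
        have h4 := hblock i (hi12.trans hii) k (hMk i hii) Y h1 h2
        have h5 := hC0 (A k) (2 ^ i2) Nat.one_le_two_pow
        push_cast at h5
        rw [← Finset.sum_Ioc_consecutive _ (Nat.zero_le (2 ^ i)) h1]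
        refine (abs_add_le _ _).trans ?_
        have h6 : ((2 : ℝ) ^ i) ^ θ ≤ (Y : ℝ) ^ θ :=
          Real.rpow_le_rpow (by positivity) (by exact_mod_cast h1) hθ.le
        have h7 : C1 * ((2 : ℝ) ^ i) ^ θ ≤ C1 * (Y : ℝ) ^ θ := mul_le_mul_of_nonneg_left h6 hC10
        have h8 : C1 * ((2 : ℝ) ^ i) ^ θ = K / ((2 : ℝ) ^ θ - 1) * ((2 : ℝ) ^ i) ^ θ +
            K * ((2 : ℝ) ^ i) ^ θ := by rw [hC1]; ring
        linarith
    have hYθ : (Y : ℝ) ^ θ ≤ α ^ θ * (N : ℝ) ^ (1 - κ0 / 256) := by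
      calc (Y : ℝ) ^ θ ≤ (α * (N : ℝ) ^ c) ^ θ := Real.rpow_le_rpow (by positivity) hYle hθ.le
        _ = α ^ θ * (N : ℝ) ^ (c * θ) := by
            rw [Real.mul_rpow hα.le (by positivity), ← Real.rpow_mul hN0.le]
        _ ≤ _ := by
            have h1 : c * θ ≤ 1 - κ0 / 256 := by
              have h2 : c * θ = 1 - c * κ0 / 4 := by
                rw [hθd]
                field_simp
              rw [h2]
              nlinarith
            have h3 := Real.rpow_le_rpow_of_exponent_le hN1 h1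
            gcongr
    obtain ⟨h1, h2⟩ := nA_close (A k) hc.le hα N
    rw [mA_eq]
    rw [Finset.sum_sub_distrib] at hsum
    have h3 : 0 ≤ 1 / α + 1 := by positivity
    have h4 : 1 / α + 1 ≤ (1 / α + 1) * (N : ℝ) ^ (1 - κ0 / 256) := le_mul_of_one_le_right h3 hN1κ
    have h5 := mul_le_mul_of_nonneg_left hi2le hC00
    have h6 := mul_le_mul_of_nonneg_left hYθ hC10
    have h7 : ((1 / α + 1) + C0 * R + C1 * α ^ θ) * (N : ℝ) ^ (1 - κ0 / 256) =
        (1 / α + 1) * (N : ℝ) ^ (1 - κ0 / 256) + C0 * (R * (N : ℝ) ^ (1 - κ0 / 256)) +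
          C1 * (α ^ θ * (N : ℝ) ^ (1 - κ0 / 256)) := by ring
    rw [h7]
    rw [abs_le] at hsum ⊢
    constructor <;> linarith [hsum.1, hsum.2]

end Pool.Agent.Q178.RS
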