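import Pool.Agent.Q178.RS.Dens
import Pool.Agent.H970R2.X.Apl

/-! Counting functions of primes in residue classes, shifted. -/

set_option autoImplicit false

open Finset MeasureTheory Filter Asymptotics Topology

namespace Pool.Agent.Q178.RS

open Pool.Agent.H706R2.PS

theorem mem_Ax {A : Set ℕ} {X y m : ℕ} : m ∈ Ax A X y ↔ (X < m ∧ m ≤ y) ∧ m ∈ A := by
  classical
  unfold Ax
  rw [mem_filter, mem_Ioc]

/-- from `∑ log p` to the number of primes -/
theorem card_of_theta (Q : Set ℕ) (δ : ℝ)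
    (h : Tendsto (fun n : ℕ => (∑ p ∈ Ax Q 0 n, Real.log p) / n) atTop (𝓝 δ)) :
    Tendsto (fun n : ℕ => ((Ax Q 0 n).card : ℝ) * Real.log n / n) atTop (𝓝 δ) := by
  classical
  have hL : Tendsto (fun n : ℕ => Real.log (n : ℝ)) atTop atTop :=
    Real.tendsto_log_atTop.comp tendsto_natCast_atTop_atTop
  have hLL : Tendsto (fun n : ℕ => Real.log (Real.log (n : ℝ)) / Real.log n) atTop (𝓝 0) := by
    have h1 : Tendsto (fun x : ℝ => Real.log x / x) atTop (𝓝 0) := by
      have := (isLittleO_log_rpow_atTop (show (0 : ℝ) < 1 by norm_num)).tendsto_div_nhds_zero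
      simpa using this
    exact h1.comp hL
  have hR : Tendsto (fun n : ℕ => (1 - 2 * (Real.log (Real.log (n : ℝ)) / Real.log n))⁻¹) atTop (𝓝 1) := by
    have h1 : Tendsto (fun n : ℕ => (1 - 2 * (Real.log (Real.log (n : ℝ)) / Real.log n))) atTop
        (𝓝 (1 - 2 * 0)) := tendsto_const_nhds.sub (hLL.const_mul 2)
    rw [mul_zero, sub_zero] at h1
    have := h1.inv₀ one_ne_zero
    rwa [inv_one] at this
  have hup : Tendsto (fun n : ℕ => (Real.log (n : ℝ))⁻¹ + (∑ p ∈ Ax Q 0 n, Real.log p) / n *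
      (1 - 2 * (Real.log (Real.log (n : ℝ)) / Real.log n))⁻¹) atTop (𝓝 δ) := by
    have h1 := (hL.inv_tendsto_atTop).add (h.mul hR)
    rw [zero_add, mul_one] at h1
    exact h1
  refine tendsto_of_tendsto_of_tendsto_of_le_of_le' h hup ?_ ?_
  · filter_upwards [eventually_ge_atTop 1] with n hn
    have h0 : (0 : ℝ) < n := by exact_mod_cast hn
    rw [div_le_div_iff_of_pos_right h0, ← nsmul_eq_mul]
    refine Finset.sum_le_card_nsmul _ _ _ fun p hp => ?_
    have h1 := (mem_Ax.1 hp).1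
    exact Real.log_le_log (by exact_mod_cast h1.1) (by exact_mod_cast h1.2)
  · have hpos : ∀ᶠ n : ℕ in atTop, 0 < 1 - 2 * (Real.log (Real.log (n : ℝ)) / Real.log n) := by
      have h1 : Tendsto (fun n : ℕ => (1 - 2 * (Real.log (Real.log (n : ℝ)) / Real.log n))) atTop
          (𝓝 (1 - 2 * 0)) := tendsto_const_nhds.sub (hLL.const_mul 2)
      exact h1.eventually (lt_mem_nhds (by norm_num))
    filter_upwards [eventually_ge_atTop 1, hpos, hL.eventually_gt_atTop 1] with n hn hp hl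
    have h0 : (0 : ℝ) < n := by exact_mod_cast hn
    set L := Real.log (n : ℝ) with hLd
    have hL0 : 0 < L := by linarith
    have hy0 : 0 < (n : ℝ) / L ^ 2 := by positivity
    -- split at `n / L^2`
    have hsplit : ((Ax Q 0 n).card : ℝ) ≤ n / L ^ 2 +
        (((Ax Q 0 n).filter (fun p : ℕ => (n : ℝ) / L ^ 2 < p)).card : ℝ) := by
      have h1 := Finset.card_filter_add_card_filter_not (s := Ax Q 0 n) (fun p : ℕ => (n : ℝ) / L ^ 2 < p)
      have h2 : (((Ax Q 0 n).filter (fun p : ℕ => ¬ (n : ℝ) / L ^ 2 < p)).card : ℝ) ≤ n / L ^ 2 := by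
        have h3 : ((Ax Q 0 n).filter (fun p : ℕ => ¬ (n : ℝ) / L ^ 2 < p)) ⊆ Ioc 0 ⌊(n : ℝ) / L ^ 2⌋₊ := by
          intro p hp
          rw [mem_filter] at hp
          rw [mem_Ioc]
          exact ⟨(mem_Ax.1 hp.1).1.1, Nat.le_floor (not_lt.1 hp.2)⟩
        have h4 := Finset.card_le_card h3
        rw [Nat.card_Ioc, Nat.sub_zero] at h4
        exact (Nat.cast_le.2 h4).trans (Nat.floor_le hy0.le)
      rw [← h1]
      push_cast
      linarith
    have hlog : Real.log ((n : ℝ) / L ^ 2) = L * (1 - 2 * (Real.log L / L)) := by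
      rw [Real.log_div h0.ne' (by positivity), Real.log_pow, ← hLd]
      field_simp
      push_cast
      ring
    have hbig : (((Ax Q 0 n).filter (fun p : ℕ => (n : ℝ) / L ^ 2 < p)).card : ℝ) *
        (L * (1 - 2 * (Real.log L / L))) ≤ ∑ p ∈ Ax Q 0 n, Real.log p := by
      rw [← hlog, ← nsmul_eq_mul]
      refine le_trans (Finset.card_nsmul_le_sum _ (fun p : ℕ => Real.log (p : ℝ)) _ fun p hp => ?_)
        (Finset.sum_le_sum_of_subset_of_nonneg (Finset.filter_subset _ _) fun p hp _ => ?_)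
      · rw [mem_filter] at hp
        exact Real.log_le_log hy0 hp.2.le
      · have h1 := (mem_Ax.1 hp).1
        exact Real.log_nonneg (by exact_mod_cast h1.1)
    set r := 1 - 2 * (Real.log L / L) with hr
    set th := ∑ p ∈ Ax Q 0 n, Real.log (p : ℝ) with hth
    set B := (((Ax Q 0 n).filter (fun p : ℕ => (n : ℝ) / L ^ 2 < p)).card : ℝ) with hB
    have h5 : B * L ≤ th * r⁻¹ := by
      rw [← div_eq_mul_inv, le_div_iff₀ hp]
      linarith
    have h6 : (n : ℝ) / L ^ 2 * L = n * L⁻¹ := by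
      field_simp
    calc ((Ax Q 0 n).card : ℝ) * L / n ≤ (n / L ^ 2 + B) * L / n := by gcongr
      _ = ((n : ℝ) / L ^ 2 * L + B * L) / n := by ring
      _ ≤ (n * L⁻¹ + th * r⁻¹) / n := by rw [h6]; gcongr
      _ = L⁻¹ + th / n * r⁻¹ := by field_simp

/-- translation of a set -/
theorem shift_card (A B : Set ℕ) (a : ℕ) (h : ∀ m : ℕ, m ∈ A ↔ m + a ∈ B) (n : ℕ) :
    (Ax A 0 n).card ≤ (Ax B 0 n).card + a ∧ (Ax B 0 n).card ≤ (Ax A 0 n).card + a := by
  classical
  constructor
  · have h1 : (Ax A 0 n).image (· + a) ⊆ Ax B 0 n ∪ Ioc n (n + a) := by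
      intro m hm
      obtain ⟨m', hm', rfl⟩ := mem_image.1 hm
      obtain ⟨⟨h2, h3⟩, h4⟩ := mem_Ax.1 hm'
      rw [mem_union]
      by_cases h5 : m' + a ≤ n
      · left
        exact mem_Ax.2 ⟨⟨by omega, h5⟩, (h _).1 h4⟩
      · right
        rw [mem_Ioc]
        omega
    have h2 := (Finset.card_le_card h1).trans (Finset.card_union_le _ _)
    rw [Finset.card_image_of_injective _ (add_left_injective a), Nat.card_Ioc] at h2
    omega
  · have h1 : Ax B 0 n ⊆ (Ax A 0 n).image (· + a) ∪ Ioc 0 a := by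
      intro m hm
      obtain ⟨⟨h2, h3⟩, h4⟩ := mem_Ax.1 hm
      rw [mem_union]
      by_cases h5 : m ≤ a
      · right
        rw [mem_Ioc]
        omega
      · left
        rw [mem_image]
        refine ⟨m - a, mem_Ax.2 ⟨⟨by omega, by omega⟩, ?_⟩, by omega⟩
        rw [h, Nat.sub_add_cancel (by omega)]
        exact h4
    have h2 := (Finset.card_le_card h1).trans (Finset.card_union_le _ _)
    rw [Finset.card_image_of_injective _ (add_left_injective a), Nat.card_Ioc] at h2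
    omega

/-- `{m : m + a ∈ B}` for an integer `a` -/
def shiftZ (B : Set ℕ) (a : ℤ) : Set ℕ := {m | ∃ p : ℕ, p ∈ B ∧ (p : ℤ) = (m : ℤ) + a}

theorem shiftZ_card (B : Set ℕ) (a : ℤ) (n : ℕ) :
    (Ax (shiftZ B a) 0 n).card ≤ (Ax B 0 n).card + a.natAbs ∧
      (Ax B 0 n).card ≤ (Ax (shiftZ B a) 0 n).card + a.natAbs := by
  rcases Int.eq_nat_or_neg a with ⟨k, rfl | rfl⟩
  · rw [Int.natAbs_natCast]
    refine shift_card _ _ k (fun m => ?_) n
    constructor
    · rintro ⟨p, hp, he⟩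
      have : p = m + k := by exact_mod_cast he
      rwa [← this]
    · intro h
      exact ⟨m + k, h, by push_cast; ring⟩
  · rw [Int.natAbs_neg, Int.natAbs_natCast]
    refine (shift_card B (shiftZ B (-(k : ℤ))) k (fun m => ?_) n).symm
    constructor
    · intro h
      exact ⟨m, h, by push_cast; ring⟩
    · rintro ⟨p, hp, he⟩
      have : (p : ℤ) = m := by rw [he]; push_cast; ring
      have : p = m := by exact_mod_cast this
      rwa [← this]

theorem tendsto_shift {A B : Set ℕ} {a : ℕ} {δ : ℝ}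
    (h : ∀ n : ℕ, (Ax A 0 n).card ≤ (Ax B 0 n).card + a ∧ (Ax B 0 n).card ≤ (Ax A 0 n).card + a)
    (hB : Tendsto (fun n : ℕ => ((Ax B 0 n).card : ℝ) * Real.log n / n) atTop (𝓝 δ)) :
    Tendsto (fun n : ℕ => ((Ax A 0 n).card : ℝ) * Real.log n / n) atTop (𝓝 δ) := by
  have h0 : Tendsto (fun n : ℕ => (a : ℝ) * (Real.log (n : ℝ) / n)) atTop (𝓝 0) := by
    have h1 : Tendsto (fun x : ℝ => Real.log x / x) atTop (𝓝 0) := by
      have := (isLittleO_log_rpow_atTop (show (0 : ℝ) < 1 by norm_num)).tendsto_div_nhds_zero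
      simpa using this
    have := (h1.comp tendsto_natCast_atTop_atTop).const_mul (a : ℝ)
    rw [mul_zero] at this
    exact this
  have h1 : Tendsto (fun n : ℕ => ((Ax A 0 n).card : ℝ) * Real.log n / n -
      ((Ax B 0 n).card : ℝ) * Real.log n / n) atTop (𝓝 0) := by
    refine squeeze_zero_norm' ?_ h0
    filter_upwards [eventually_ge_atTop 1] with n hn
    have hn0 : (0 : ℝ) < n := by exact_mod_cast hn
    have hl : 0 ≤ Real.log (n : ℝ) := Real.log_nonneg (by exact_mod_cast hn)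
    have e1 : ((Ax A 0 n).card : ℝ) * Real.log n / n - ((Ax B 0 n).card : ℝ) * Real.log n / n =
        (((Ax A 0 n).card : ℝ) - (Ax B 0 n).card) * (Real.log n / n) := by ring
    rw [e1, norm_mul, Real.norm_eq_abs, Real.norm_eq_abs, abs_of_nonneg (show 0 ≤ Real.log (n : ℝ) / n by positivity)]
    gcongr
    rw [abs_le]
    obtain ⟨h2, h3⟩ := h n
    have h2' : ((Ax A 0 n).card : ℝ) ≤ (Ax B 0 n).card + a := by exact_mod_cast h2
    have h3' : ((Ax B 0 n).card : ℝ) ≤ (Ax A 0 n).card + a := by exact_mod_cast h3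
    constructor <;> linarith
  have h2 := h1.add hB
  rw [zero_add] at h2
  refine h2.congr fun n => ?_
  ring

/-- primes `≡ b mod q` -/
def PQ (q b : ℕ) : Set ℕ := {p | p.Prime ∧ p ≡ b [MOD q]}

theorem pq_tendsto (q b : ℕ) (hq : 0 < q) (hb : b.Coprime q) :
    Tendsto (fun n : ℕ => ((Ax (PQ q b) 0 n).card : ℝ) * Real.log n / n) atTop (𝓝 ((q.totient : ℝ)⁻¹)) := by
  classical
  apply card_of_theta
  have h1 := (Pool.Agent.H970R2.X.xapl_th_tendsto q b hq hb).comp tendsto_natCast_atTop_atTop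
  refine h1.congr fun n => ?_
  simp only [Function.comp]
  congr 1
  unfold Pool.Agent.H970R2.X.xapl_th
  rw [Nat.floor_natCast]
  apply Finset.sum_congr _ (fun _ _ => rfl)
  ext p
  rw [mem_filter, mem_Ax]
  simp only [mem_Ioc, PQ, Set.mem_ofPred_eq, Nat.ModEq]

theorem pqz_tendsto (q b : ℕ) (a : ℤ) (hq : 0 < q) (hb : b.Coprime q) :
    Tendsto (fun n : ℕ => ((Ax (shiftZ (PQ q b) a) 0 n).card : ℝ) * Real.log n / n) atTop
      (𝓝 ((q.totient : ℝ)⁻¹)) :=
  tendsto_shift (shiftZ_card (PQ q b) a) (pq_tendsto q b hq hb)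

end Pool.Agent.Q178.RS
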